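import Mathlib

/-! Phase function for the pair `cos (P t + φ)`, `cos (Q t)`. -/

set_option autoImplicit false

open Real Set

namespace Pool.Agent.L7h26.NS

/-- `cos² (Q t) + (Q/P)² sin² (Q t)` -/
noncomputable def NN (P Q t : ℝ) : ℝ := cos (Q * t) ^ 2 + (Q / P) ^ 2 * sin (Q * t) ^ 2

noncomputable def D1 (P Q t : ℝ) : ℝ := cos (Q * t) ^ 2 + (Q / P) * sin (Q * t) ^ 2

noncomputable def D2 (P Q t : ℝ) : ℝ := (1 - Q / P) * (sin (Q * t) * cos (Q * t))

/-- the phase function -/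
noncomputable def Th (P Q t : ℝ) : ℝ := (P - Q) * t + arctan (D2 P Q t / D1 P Q t)

section
variable {P Q : ℝ}

lemma ratio_pos (hQ : 0 < Q) (hPQ : Q < P) : 0 < Q / P := div_pos hQ (hQ.trans hPQ)

lemma ratio_lt_one (hQ : 0 < Q) (hPQ : Q < P) : Q / P < 1 := by
  rw [div_lt_one (hQ.trans hPQ)]; exact hPQ

lemma D1_pos (hQ : 0 < Q) (hPQ : Q < P) (t : ℝ) : 0 < D1 P Q t := by
  have h1 := ratio_pos hQ hPQ
  have h2 := ratio_lt_one hQ hPQ
  have h3 := sin_sq_add_cos_sq (Q * t)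
  unfold D1
  have h4 : 0 ≤ cos (Q * t) ^ 2 := sq_nonneg _
  have h5 : 0 ≤ sin (Q * t) ^ 2 := sq_nonneg _
  nlinarith [mul_pos h1 h1]

lemma NN_pos (hQ : 0 < Q) (hPQ : Q < P) (t : ℝ) : 0 < NN P Q t := by
  have h1 := ratio_pos hQ hPQ
  have h2 := ratio_lt_one hQ hPQ
  have h3 := sin_sq_add_cos_sq (Q * t)
  unfold NN
  have h4 : 0 ≤ cos (Q * t) ^ 2 := sq_nonneg _
  have h5 : 0 ≤ sin (Q * t) ^ 2 := sq_nonneg _
  have h6 : 0 < (Q / P) ^ 2 := by positivity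
  have h7 : (Q / P) ^ 2 < 1 := by nlinarith
  nlinarith

lemma D_sq (P Q t : ℝ) : D1 P Q t ^ 2 + D2 P Q t ^ 2 = NN P Q t := by
  unfold D1 D2 NN
  have h3 := sin_sq_add_cos_sq (Q * t)
  have h4 : cos (Q * t) ^ 2 = 1 - sin (Q * t) ^ 2 := by linarith
  have : ((cos (Q * t) ^ 2 + Q / P * sin (Q * t) ^ 2) ^ 2 +
      ((1 - Q / P) * (sin (Q * t) * cos (Q * t))) ^ 2) =
      ((cos (Q * t) ^ 2) + Q / P * sin (Q * t) ^ 2) ^ 2 +
      (1 - Q / P) ^ 2 * (sin (Q * t) ^ 2 * cos (Q * t) ^ 2) := by ring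
  rw [this, h4]
  ring

lemma sqrt_cos_arctan (hQ : 0 < Q) (hPQ : Q < P) (t : ℝ) :
    √(NN P Q t) * cos (arctan (D2 P Q t / D1 P Q t)) = D1 P Q t := by
  have h1 := D1_pos hQ hPQ t
  have hN := NN_pos hQ hPQ t
  rw [cos_arctan]
  have : 1 + (D2 P Q t / D1 P Q t) ^ 2 = NN P Q t / (D1 P Q t) ^ 2 := by
    rw [← D_sq]; field_simp
  rw [this, sqrt_div hN.le, sqrt_sq h1.le]
  have : √(NN P Q t) ≠ 0 := by positivity
  field_simp

lemma sqrt_sin_arctan (hQ : 0 < Q) (hPQ : Q < P) (t : ℝ) :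
    √(NN P Q t) * sin (arctan (D2 P Q t / D1 P Q t)) = D2 P Q t := by
  have h1 := D1_pos hQ hPQ t
  have hN := NN_pos hQ hPQ t
  rw [sin_arctan]
  have : 1 + (D2 P Q t / D1 P Q t) ^ 2 = NN P Q t / (D1 P Q t) ^ 2 := by
    rw [← D_sq]; field_simp
  rw [this, sqrt_div hN.le, sqrt_sq h1.le]
  have : √(NN P Q t) ≠ 0 := by positivity
  field_simp

/-- the sine of the phase -/
lemma sin_Th (hQ : 0 < Q) (hPQ : Q < P) (t φ : ℝ) :
    √(NN P Q t) * sin (Th P Q t + φ) =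
      sin (P * t + φ) * cos (Q * t) - Q / P * (cos (P * t + φ) * sin (Q * t)) := by
  have hc := sqrt_cos_arctan hQ hPQ t
  have hs := sqrt_sin_arctan hQ hPQ t
  have e : Th P Q t + φ = ((P * t + φ) - Q * t) + arctan (D2 P Q t / D1 P Q t) := by
    unfold Th; ring
  rw [e, sin_add, mul_add]
  generalize arctan (D2 P Q t / D1 P Q t) = al at *
  have e1 : √(NN P Q t) * (sin (P * t + φ - Q * t) * cos al) =
      sin (P * t + φ - Q * t) * D1 P Q t := by rw [← hc]; ring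
  have e2 : √(NN P Q t) * (cos (P * t + φ - Q * t) * sin al) =
      cos (P * t + φ - Q * t) * D2 P Q t := by rw [← hs]; ring
  rw [e1, e2, sin_sub, cos_sub]
  unfold D1 D2
  have h3 := sin_sq_add_cos_sq (Q * t)
  have h4 : cos (Q * t) ^ 2 = 1 - sin (Q * t) ^ 2 := by linarith
  generalize sin (P * t + φ) = a at *
  generalize cos (P * t + φ) = b at *
  generalize sin (Q * t) = s at *
  generalize cos (Q * t) = k at *
  have h5 : k ^ 3 = k * (1 - s ^ 2) := by rw [← h4]; ring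
  linear_combination (a * k - Q / P * b * s) * h3

lemma cos_Th (hQ : 0 < Q) (hPQ : Q < P) (t φ : ℝ) :
    √(NN P Q t) * cos (Th P Q t + φ) =
      cos (P * t + φ) * cos (Q * t) + Q / P * (sin (P * t + φ) * sin (Q * t)) := by
  have h := sin_Th hQ hPQ t (φ + π / 2)
  have e1 : Th P Q t + (φ + π / 2) = (Th P Q t + φ) + π / 2 := by ring
  have e2 : P * t + (φ + π / 2) = (P * t + φ) + π / 2 := by ring
  rw [e1, e2, sin_add_pi_div_two, sin_add_pi_div_two, cos_add_pi_div_two] at h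
  rw [h]; ring

/-- `cos (P t + φ)` from the phase -/
lemma cos_of_Th (hQ : 0 < Q) (hPQ : Q < P) (t φ : ℝ) :
    √(NN P Q t) * cos (P * t + φ) =
      cos (Th P Q t + φ) * cos (Q * t) - Q / P * (sin (Th P Q t + φ) * sin (Q * t)) := by
  have h1 := sin_Th hQ hPQ t φ
  have h2 := cos_Th hQ hPQ t φ
  have hN := NN_pos hQ hPQ t
  have hN' : √(NN P Q t) ≠ 0 := by positivity
  have hsq : √(NN P Q t) * √(NN P Q t) = NN P Q t := mul_self_sqrt hN.le
  apply mul_left_cancel₀ hN'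
  rw [← mul_assoc, hsq]
  have e : √(NN P Q t) * (cos (Th P Q t + φ) * cos (Q * t) -
      Q / P * (sin (Th P Q t + φ) * sin (Q * t))) =
      (√(NN P Q t) * cos (Th P Q t + φ)) * cos (Q * t) -
      Q / P * ((√(NN P Q t) * sin (Th P Q t + φ)) * sin (Q * t)) := by ring
  rw [e, h1, h2]
  unfold NN
  ring

lemma hasDerivAt_Th (hQ : 0 < Q) (hPQ : Q < P) (t : ℝ) :
    HasDerivAt (Th P Q) ((P ^ 2 - Q ^ 2) / P * (cos (Q * t) ^ 2 / NN P Q t)) t := by
  have hP : 0 < P := hQ.trans hPQ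
  have hD := D1_pos hQ hPQ t
  have hN := NN_pos hQ hPQ t
  have hs : HasDerivAt (fun t => sin (Q * t)) (cos (Q * t) * Q) t := by
    have := (hasDerivAt_id t).const_mul Q
    simpa using (this.sin)
  have hc : HasDerivAt (fun t => cos (Q * t)) (-sin (Q * t) * Q) t := by
    have := (hasDerivAt_id t).const_mul Q
    simpa using (this.cos)
  have h1 : HasDerivAt (D1 P Q) (2 * cos (Q * t) * (-sin (Q * t) * Q) +
      (Q / P) * (2 * sin (Q * t) * (cos (Q * t) * Q))) t := by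
    have a := (hc.pow 2).add ((hs.pow 2).const_mul (Q / P))
    exact a.congr_deriv (by norm_num)
  have h2 : HasDerivAt (D2 P Q) ((1 - Q / P) * ((cos (Q * t) * Q) * cos (Q * t) +
      sin (Q * t) * (-sin (Q * t) * Q))) t := by
    exact (hs.mul hc).const_mul (1 - Q / P)
  have h3 := (h2.div h1 hD.ne').arctan
  have h4 : HasDerivAt (fun t : ℝ => (P - Q) * t) (P - Q) t := by
    simpa using (hasDerivAt_id t).const_mul (P - Q)
  have h5 := h4.add h3
  refine (h5.congr_deriv ?_)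
  have hD2 : D1 P Q t ^ 2 ≠ 0 := by positivity
  have e1 : 1 + (D2 P Q t / D1 P Q t) ^ 2 = NN P Q t / (D1 P Q t) ^ 2 := by
    rw [← D_sq]; field_simp
  have hsc := sin_sq_add_cos_sq (Q * t)
  simp only [Pi.div_apply]
  rw [e1]
  have hN0 : NN P Q t ≠ 0 := hN.ne'
  have e2 : 1 / (NN P Q t / D1 P Q t ^ 2) * (((1 - Q / P) * (cos (Q * t) * Q * cos (Q * t) +
      sin (Q * t) * (-sin (Q * t) * Q)) * D1 P Q t - D2 P Q t * (2 * cos (Q * t) *
      (-sin (Q * t) * Q) + Q / P * (2 * sin (Q * t) * (cos (Q * t) * Q)))) / D1 P Q t ^ 2) =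
      ((1 - Q / P) * (cos (Q * t) * Q * cos (Q * t) +
      sin (Q * t) * (-sin (Q * t) * Q)) * D1 P Q t - D2 P Q t * (2 * cos (Q * t) *
      (-sin (Q * t) * Q) + Q / P * (2 * sin (Q * t) * (cos (Q * t) * Q)))) / NN P Q t := by
    field_simp
  rw [e2]
  have e3 : (1 - Q / P) * (cos (Q * t) * Q * cos (Q * t) +
      sin (Q * t) * (-sin (Q * t) * Q)) * D1 P Q t - D2 P Q t * (2 * cos (Q * t) *
      (-sin (Q * t) * Q) + Q / P * (2 * sin (Q * t) * (cos (Q * t) * Q))) =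
      (1 - Q / P) * Q * (cos (Q * t) ^ 2 - Q / P * sin (Q * t) ^ 2) := by
    unfold D1 D2
    generalize sin (Q * t) = s at *
    generalize cos (Q * t) = k at *
    have h4 : k ^ 2 = 1 - s ^ 2 := by linarith
    linear_combination ((1 - Q / P) * Q * (k ^ 2 - Q / P * s ^ 2)) * hsc
  rw [e3]
  rw [eq_comm, ← sub_eq_zero]
  have e4 : (P ^ 2 - Q ^ 2) / P * (cos (Q * t) ^ 2 / NN P Q t) - (P - Q + (1 - Q / P) * Q *
      (cos (Q * t) ^ 2 - Q / P * sin (Q * t) ^ 2) / NN P Q t) =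
      ((P ^ 2 - Q ^ 2) / P * cos (Q * t) ^ 2 - (P - Q) * NN P Q t - (1 - Q / P) * Q *
      (cos (Q * t) ^ 2 - Q / P * sin (Q * t) ^ 2)) / NN P Q t := by
    field_simp
    ring
  rw [e4]
  have e5 : ((P ^ 2 - Q ^ 2) / P * cos (Q * t) ^ 2 - (P - Q) * NN P Q t - (1 - Q / P) * Q *
      (cos (Q * t) ^ 2 - Q / P * sin (Q * t) ^ 2)) = 0 := by
    unfold NN
    have h4 : sin (Q * t) ^ 2 = 1 - cos (Q * t) ^ 2 := by linarith
    rw [h4]
    field_simp
    ring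
  rw [e5, zero_div]

end

end Pool.Agent.L7h26.NS
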