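import Mathlib
import Pool.Agent.L7h26.NS.Phase

/-! One variable facts for `g = cos (P t + φ) / cos (Q t)` on `(-κ, κ)`, `κ = π / (2 Q)`. -/

set_option autoImplicit false

open Real Set

namespace Pool.Agent.L7h26.NS

noncomputable def kap (Q : ℝ) : ℝ := π / (2 * Q)

/-- the quotient -/
noncomputable def gg (P Q φ t : ℝ) : ℝ := cos (P * t + φ) / cos (Q * t)

/-- the amplitude -/
noncomputable def GG (P Q t : ℝ) : ℝ := (√(NN P Q t))⁻¹

section
variable {P Q : ℝ}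

lemma kap_pos (hQ : 0 < Q) : 0 < kap Q := by unfold kap; positivity

lemma Q_kap (hQ : 0 < Q) : Q * kap Q = π / 2 := by unfold kap; field_simp

lemma cosQ_pos (hQ : 0 < Q) {t : ℝ} (h1 : -kap Q < t) (h2 : t < kap Q) : 0 < cos (Q * t) := by
  apply cos_pos_of_mem_Ioo
  have h := Q_kap hQ
  constructor <;> nlinarith

lemma cosQ_nonneg (hQ : 0 < Q) {t : ℝ} (h1 : -kap Q ≤ t) (h2 : t ≤ kap Q) :
    0 ≤ cos (Q * t) := by
  apply cos_nonneg_of_mem_Icc
  have h := Q_kap hQ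
  constructor <;> nlinarith

lemma cosQ_kap (hQ : 0 < Q) : cos (Q * kap Q) = 0 := by rw [Q_kap hQ, cos_pi_div_two]

lemma sinQ_kap (hQ : 0 < Q) : sin (Q * kap Q) = 1 := by rw [Q_kap hQ, sin_pi_div_two]

lemma Th_zero (P Q : ℝ) : Th P Q 0 = 0 := by simp [Th, D2]

lemma Th_kap (hQ : 0 < Q) : Th P Q (kap Q) = P * kap Q - π / 2 := by
  have h : D2 P Q (kap Q) = 0 := by unfold D2; rw [cosQ_kap hQ]; ring
  unfold Th
  rw [h, zero_div, arctan_zero, add_zero, sub_mul, Q_kap hQ]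

lemma Th_neg (t : ℝ) : Th P Q (-t) = -Th P Q t := by
  have h1 : D1 P Q (-t) = D1 P Q t := by unfold D1; simp
  have h2 : D2 P Q (-t) = -D2 P Q t := by unfold D2; simp
  unfold Th
  rw [h1, h2, neg_div, arctan_neg]; ring

lemma NN_neg (t : ℝ) : NN P Q (-t) = NN P Q t := by unfold NN; simp

lemma Th_cont (hQ : 0 < Q) (hPQ : Q < P) : Continuous (Th P Q) :=
  continuous_iff_continuousAt.2 fun t => (hasDerivAt_Th hQ hPQ t).continuousAt

lemma NN_cont : Continuous (NN P Q) := by unfold NN; fun_prop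

lemma GG_cont (hQ : 0 < Q) (hPQ : Q < P) : Continuous (GG P Q) := by
  unfold GG
  refine Continuous.inv₀ (continuous_sqrt.comp NN_cont) fun t => ?_
  have := NN_pos hQ hPQ t
  positivity

lemma Th_strictMono (hQ : 0 < Q) (hPQ : Q < P) :
    StrictMonoOn (Th P Q) (Icc (-kap Q) (kap Q)) := by
  apply strictMonoOn_of_deriv_pos (convex_Icc _ _) (Th_cont hQ hPQ).continuousOn
  intro t ht
  rw [interior_Icc] at ht
  rw [(hasDerivAt_Th hQ hPQ t).deriv]
  have h1 := cosQ_pos hQ ht.1 ht.2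
  have h2 := NN_pos hQ hPQ t
  have h3 : 0 < P := hQ.trans hPQ
  have h4 : 0 < P ^ 2 - Q ^ 2 := by nlinarith
  positivity

lemma hasDerivAt_gg (hQ : 0 < Q) (hPQ : Q < P) (φ : ℝ) {t : ℝ} (ht : cos (Q * t) ≠ 0) :
    HasDerivAt (gg P Q φ) (-(P * √(NN P Q t) / cos (Q * t) ^ 2) * sin (Th P Q t + φ)) t := by
  have hP : 0 < P := hQ.trans hPQ
  have h0 : HasDerivAt (fun t => P * t + φ) P t := by
    simpa using ((hasDerivAt_id t).const_mul P).add_const φ
  have h1 : HasDerivAt (fun t => cos (P * t + φ)) (-sin (P * t + φ) * P) t := h0.cos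
  have hc : HasDerivAt (fun t => cos (Q * t)) (-sin (Q * t) * Q) t := by
    have := (hasDerivAt_id t).const_mul Q
    simpa using (this.cos)
  have h2 := h1.div hc ht
  refine h2.congr_deriv ?_
  have hs := sin_Th hQ hPQ t φ
  have e : -(P * √(NN P Q t) / cos (Q * t) ^ 2) * sin (Th P Q t + φ) =
      -(P * (√(NN P Q t) * sin (Th P Q t + φ)) / cos (Q * t) ^ 2) := by ring
  rw [e, hs]
  field_simp
  ring

lemma gg_cont (hQ : 0 < Q) {φ s t : ℝ} (hs : -kap Q < s) (ht : t < kap Q) :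
    ContinuousOn (gg P Q φ) (Icc s t) := by
  unfold gg
  apply ContinuousOn.div (by fun_prop) (by fun_prop)
  intro x hx
  exact (cosQ_pos hQ (hs.trans_le hx.1) (hx.2.trans_lt ht)).ne'

lemma gg_le (hQ : 0 < Q) (hPQ : Q < P) {φ s t : ℝ} (hs : -kap Q < s) (hst : s ≤ t)
    (ht : t < kap Q) (h : ∀ x ∈ Ioo s t, sin (Th P Q x + φ) ≤ 0) :
    gg P Q φ s ≤ gg P Q φ t := by
  have hm : MonotoneOn (gg P Q φ) (Icc s t) := by
    apply monotoneOn_of_deriv_nonneg (convex_Icc _ _) (gg_cont hQ hs ht)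
    · intro x hx
      rw [interior_Icc] at hx
      exact (hasDerivAt_gg hQ hPQ φ (cosQ_pos hQ (hs.trans hx.1)
        (hx.2.trans ht)).ne').differentiableAt.differentiableWithinAt
    · intro x hx
      rw [interior_Icc] at hx
      have hc := cosQ_pos hQ (hs.trans hx.1) (hx.2.trans ht)
      rw [(hasDerivAt_gg hQ hPQ φ hc.ne').deriv]
      have hP : 0 < P := hQ.trans hPQ
      have hN := NN_pos hQ hPQ x
      have := h x hx
      have h2 : 0 < P * √(NN P Q x) / cos (Q * x) ^ 2 := by positivity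
      nlinarith
  exact hm (left_mem_Icc.2 hst) (right_mem_Icc.2 hst) hst

lemma gg_lt (hQ : 0 < Q) (hPQ : Q < P) {φ s t : ℝ} (hs : -kap Q < s) (hst : s < t)
    (ht : t < kap Q) (h : ∀ x ∈ Ioo s t, sin (Th P Q x + φ) < 0) :
    gg P Q φ s < gg P Q φ t := by
  have hm : StrictMonoOn (gg P Q φ) (Icc s t) := by
    apply strictMonoOn_of_deriv_pos (convex_Icc _ _) (gg_cont hQ hs ht)
    · intro x hx
      rw [interior_Icc] at hx
      have hc := cosQ_pos hQ (hs.trans hx.1) (hx.2.trans ht)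
      rw [(hasDerivAt_gg hQ hPQ φ hc.ne').deriv]
      have hP : 0 < P := hQ.trans hPQ
      have hN := NN_pos hQ hPQ x
      have := h x hx
      have h2 : 0 < P * √(NN P Q x) / cos (Q * x) ^ 2 := by positivity
      nlinarith
  exact hm (left_mem_Icc.2 hst.le) (right_mem_Icc.2 hst.le) hst

lemma gg_add_pi (φ t : ℝ) : gg P Q (φ + π) t = -gg P Q φ t := by
  unfold gg
  rw [show P * t + (φ + π) = (P * t + φ) + π by ring, cos_add_pi, neg_div]

lemma gg_ge (hQ : 0 < Q) (hPQ : Q < P) {φ s t : ℝ} (hs : -kap Q < s) (hst : s ≤ t)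
    (ht : t < kap Q) (h : ∀ x ∈ Ioo s t, 0 ≤ sin (Th P Q x + φ)) :
    gg P Q φ t ≤ gg P Q φ s := by
  have := gg_le hQ hPQ (φ := φ + π) hs hst ht (fun x hx => by
    rw [← add_assoc, sin_add_pi]; linarith [h x hx])
  rw [gg_add_pi, gg_add_pi] at this
  linarith

lemma gg_gt (hQ : 0 < Q) (hPQ : Q < P) {φ s t : ℝ} (hs : -kap Q < s) (hst : s < t)
    (ht : t < kap Q) (h : ∀ x ∈ Ioo s t, 0 < sin (Th P Q x + φ)) :
    gg P Q φ t < gg P Q φ s := by
  have := gg_lt hQ hPQ (φ := φ + π) hs hst ht (fun x hx => by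
    rw [← add_assoc, sin_add_pi]; linarith [h x hx])
  rw [gg_add_pi, gg_add_pi] at this
  linarith

/-- formula for `g` through the phase -/
lemma gg_eq (hQ : 0 < Q) (hPQ : Q < P) (φ : ℝ) {t : ℝ} (ht : cos (Q * t) ≠ 0) :
    gg P Q φ t = GG P Q t * (cos (Th P Q t + φ) -
      Q / P * (sin (Th P Q t + φ) * (sin (Q * t) / cos (Q * t)))) := by
  have h := cos_of_Th hQ hPQ t φ
  have hN := NN_pos hQ hPQ t
  have hN' : √(NN P Q t) ≠ 0 := by positivity
  unfold gg GG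
  have e : cos (P * t + φ) = (√(NN P Q t))⁻¹ * (cos (Th P Q t + φ) * cos (Q * t) -
      Q / P * (sin (Th P Q t + φ) * sin (Q * t))) := by
    rw [← h]; field_simp
  rw [e]
  field_simp

lemma gg_peak (hQ : 0 < Q) (hPQ : Q < P) {φ t : ℝ} (ht : cos (Q * t) ≠ 0)
    (h : cos (Th P Q t + φ) = 1) : gg P Q φ t = GG P Q t := by
  have hs : sin (Th P Q t + φ) = 0 := by
    have := sin_sq_add_cos_sq (Th P Q t + φ)
    rw [h] at this
    nlinarith
  rw [gg_eq hQ hPQ φ ht, h, hs]; ring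

lemma gg_trough (hQ : 0 < Q) (hPQ : Q < P) {φ t : ℝ} (ht : cos (Q * t) ≠ 0)
    (h : cos (Th P Q t + φ) = -1) : gg P Q φ t = -GG P Q t := by
  have hs : sin (Th P Q t + φ) = 0 := by
    have := sin_sq_add_cos_sq (Th P Q t + φ)
    rw [h] at this
    nlinarith
  rw [gg_eq hQ hPQ φ ht, h, hs]; ring

lemma GG_pos (hQ : 0 < Q) (hPQ : Q < P) (t : ℝ) : 0 < GG P Q t := by
  have := NN_pos hQ hPQ t
  unfold GG; positivity

lemma NN_le_one (hQ : 0 < Q) (hPQ : Q < P) (t : ℝ) : NN P Q t ≤ 1 := by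
  have h1 := ratio_pos hQ hPQ
  have h2 := ratio_lt_one hQ hPQ
  have h3 := sin_sq_add_cos_sq (Q * t)
  unfold NN
  have h5 : 0 ≤ sin (Q * t) ^ 2 := sq_nonneg _
  have h7 : (Q / P) ^ 2 < 1 := by nlinarith
  nlinarith

lemma one_le_GG (hQ : 0 < Q) (hPQ : Q < P) (t : ℝ) : 1 ≤ GG P Q t := by
  unfold GG
  rw [one_le_inv₀ (by have := NN_pos hQ hPQ t; positivity)]
  exact sqrt_le_one.2 (NN_le_one hQ hPQ t)

lemma GG_le (hQ : 0 < Q) (hPQ : Q < P) (t : ℝ) : GG P Q t ≤ P / Q := by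
  have hP : 0 < P := hQ.trans hPQ
  have h1 := ratio_pos hQ hPQ
  have h2 := ratio_lt_one hQ hPQ
  have h3 := sin_sq_add_cos_sq (Q * t)
  have : (Q / P) ^ 2 ≤ NN P Q t := by
    unfold NN
    have h5 : 0 ≤ cos (Q * t) ^ 2 := sq_nonneg _
    have h7 : (Q / P) ^ 2 < 1 := by nlinarith
    nlinarith
  have h4 : Q / P ≤ √(NN P Q t) := le_sqrt_of_sq_le this
  unfold GG
  rw [show P / Q = (Q / P)⁻¹ by rw [inv_div]]
  exact inv_anti₀ h1 h4

lemma GG_kap (hQ : 0 < Q) (hPQ : Q < P) : GG P Q (kap Q) = P / Q := by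
  have hP : 0 < P := hQ.trans hPQ
  unfold GG NN
  rw [cosQ_kap hQ, sinQ_kap hQ]
  have : √((0:ℝ) ^ 2 + (Q / P) ^ 2 * 1 ^ 2) = Q / P := by
    rw [show (0:ℝ) ^ 2 + (Q / P) ^ 2 * 1 ^ 2 = (Q / P) ^ 2 by ring]
    exact sqrt_sq (by positivity)
  rw [this, inv_div]

/-- the amplitude increases on `[0, κ]` -/
lemma GG_lt (hQ : 0 < Q) (hPQ : Q < P) {s t : ℝ} (hs : 0 ≤ s) (hst : s < t) (ht : t ≤ kap Q) :
    GG P Q s < GG P Q t := by
  have h1 := ratio_pos hQ hPQ
  have h2 := ratio_lt_one hQ hPQ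
  have hk := Q_kap hQ
  have hsin : sin (Q * s) < sin (Q * t) := by
    apply sin_lt_sin_of_lt_of_le_pi_div_two <;> nlinarith [pi_pos]
  have hsin0 : 0 ≤ sin (Q * s) := by
    apply sin_nonneg_of_nonneg_of_le_pi (by positivity)
    nlinarith [pi_pos]
  have hN : NN P Q t < NN P Q s := by
    unfold NN
    have h3 := sin_sq_add_cos_sq (Q * t)
    have h4 := sin_sq_add_cos_sq (Q * s)
    have h5 : sin (Q * s) ^ 2 < sin (Q * t) ^ 2 := by nlinarith
    have h7 : (Q / P) ^ 2 < 1 := by nlinarith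
    nlinarith
  unfold GG
  have hp := NN_pos hQ hPQ t
  apply inv_strictAnti₀ (by positivity)
  exact sqrt_lt_sqrt hp.le hN

lemma GG_lt_max (hQ : 0 < Q) (hPQ : Q < P) {t : ℝ} (h1 : -kap Q < t) (h2 : t < kap Q) :
    GG P Q t < P / Q := by
  have hn : GG P Q t = GG P Q |t| := by
    rcases abs_cases t with h | h
    · rw [h.1]
    · rw [h.1]; unfold GG; rw [NN_neg]
  rw [hn, ← GG_kap hQ hPQ]
  exact GG_lt hQ hPQ (abs_nonneg _) (abs_lt.2 ⟨h1, h2⟩) le_rfl

lemma log_GG (t : ℝ) : log (GG P Q t) = -(1 / 2) * log (NN P Q t) := by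
  unfold GG
  rw [log_inv, sqrt_eq_rpow]
  by_cases h : 0 < NN P Q t
  · rw [log_rpow h]; ring
  · have : NN P Q t ≤ 0 := not_lt.1 h
    have h0 : NN P Q t = 0 := le_antisymm this (by unfold NN; positivity)
    rw [h0]; simp

/-- the auxiliary function of the comparison -/
noncomputable def FF (P Q m t : ℝ) : ℝ :=
  -(1 / 2) * log (NN P Q t) - Q / P * (sin (Q * m) / cos (Q * m)) * Th P Q t

lemma hasDerivAt_FF (hQ : 0 < Q) (hPQ : Q < P) {m : ℝ} (hm : cos (Q * m) ≠ 0) (t : ℝ) :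
    HasDerivAt (FF P Q m) ((P ^ 2 - Q ^ 2) / P * (Q / P) / cos (Q * m) *
      (cos (Q * t) * sin (Q * (t - m)) / NN P Q t)) t := by
  have hP : 0 < P := hQ.trans hPQ
  have hN := NN_pos hQ hPQ t
  have hs : HasDerivAt (fun t => sin (Q * t)) (cos (Q * t) * Q) t := by
    have := (hasDerivAt_id t).const_mul Q
    simpa using (this.sin)
  have hc : HasDerivAt (fun t => cos (Q * t)) (-sin (Q * t) * Q) t := by
    have := (hasDerivAt_id t).const_mul Q
    simpa using (this.cos)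
  have h1 : HasDerivAt (NN P Q) (2 * cos (Q * t) * (-sin (Q * t) * Q) +
      (Q / P) ^ 2 * (2 * sin (Q * t) * (cos (Q * t) * Q))) t := by
    have a := (hc.pow 2).add ((hs.pow 2).const_mul ((Q / P) ^ 2))
    exact a.congr_deriv (by norm_num)
  have h2 := (h1.log hN.ne').const_mul (-(1 / 2) : ℝ)
  have h3 := h2.sub ((hasDerivAt_Th hQ hPQ t).const_mul (Q / P * (sin (Q * m) / cos (Q * m))))
  refine h3.congr_deriv ?_
  rw [mul_sub, sin_sub]
  have hN0 := hN.ne'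
  field_simp
  ring

lemma FF_anti (hQ : 0 < Q) (hPQ : Q < P) {m s t : ℝ} (hm0 : -kap Q < m) (hm : m < kap Q)
    (hs : -kap Q ≤ s) (hst : s < t) (ht : t ≤ m) : FF P Q m t < FF P Q m s := by
  have hcm := cosQ_pos hQ hm0 hm
  have hcont : Continuous (FF P Q m) :=
    continuous_iff_continuousAt.2 fun t => (hasDerivAt_FF hQ hPQ hcm.ne' t).continuousAt
  have : StrictAntiOn (FF P Q m) (Icc s t) := by
    apply strictAntiOn_of_deriv_neg (convex_Icc _ _) hcont.continuousOn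
    intro x hx
    rw [interior_Icc] at hx
    rw [(hasDerivAt_FF hQ hPQ hcm.ne' x).deriv]
    have hcx := cosQ_pos hQ (hs.trans_lt hx.1) ((hx.2.trans_le ht).trans hm)
    have hP : 0 < P := hQ.trans hPQ
    have hN := NN_pos hQ hPQ x
    have h4 : 0 < P ^ 2 - Q ^ 2 := by nlinarith
    have hk := Q_kap hQ
    have hsin : sin (Q * (x - m)) < 0 := by
      apply sin_neg_of_neg_of_neg_pi_lt
      · have : x < m := hx.2.trans_le ht
        nlinarith
      · have h5 : -kap Q < x := hs.trans_lt hx.1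
        nlinarith
    have h6 : 0 < (P ^ 2 - Q ^ 2) / P * (Q / P) / cos (Q * m) := by positivity
    have h7 : cos (Q * x) * sin (Q * (x - m)) / NN P Q x < 0 := by
      apply div_neg_of_neg_of_pos _ hN
      exact mul_neg_of_pos_of_neg hcx hsin
    exact mul_neg_of_pos_of_neg h6 h7
  exact this (left_mem_Icc.2 hst.le) (right_mem_Icc.2 hst.le) hst

lemma FF_mono (hQ : 0 < Q) (hPQ : Q < P) {m s t : ℝ} (hm0 : -kap Q < m) (hm : m < kap Q)
    (hs : m ≤ s) (hst : s < t) (ht : t ≤ kap Q) : FF P Q m s < FF P Q m t := by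
  have hcm := cosQ_pos hQ hm0 hm
  have hcont : Continuous (FF P Q m) :=
    continuous_iff_continuousAt.2 fun t => (hasDerivAt_FF hQ hPQ hcm.ne' t).continuousAt
  have : StrictMonoOn (FF P Q m) (Icc s t) := by
    apply strictMonoOn_of_deriv_pos (convex_Icc _ _) hcont.continuousOn
    intro x hx
    rw [interior_Icc] at hx
    rw [(hasDerivAt_FF hQ hPQ hcm.ne' x).deriv]
    have hcx := cosQ_pos hQ ((hm0.trans_le hs).trans hx.1) (hx.2.trans_le ht)
    have hP : 0 < P := hQ.trans hPQ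
    have hN := NN_pos hQ hPQ x
    have h4 : 0 < P ^ 2 - Q ^ 2 := by nlinarith
    have hk := Q_kap hQ
    have hsin : 0 < sin (Q * (x - m)) := by
      apply sin_pos_of_pos_of_lt_pi
      · have : m < x := hs.trans_lt hx.1
        nlinarith
      · have h5 : x < kap Q := hx.2.trans_le ht
        nlinarith
    positivity
  exact this (left_mem_Icc.2 hst.le) (right_mem_Icc.2 hst.le) hst

/-- the comparison of the growth of the amplitudes over one half period -/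
lemma compare (hQ : 0 < Q) (hPQ : Q < P) {t₀ t₁ s₀ s₁ : ℝ} (h0 : 0 ≤ t₀) (h1 : t₀ < s₀)
    (ht : Th P Q t₁ = Th P Q t₀ + π) (hs : Th P Q s₁ = Th P Q s₀ + π)
    (ht0 : 0 ≤ t₁) (ht1 : t₁ ≤ kap Q) (hs0 : 0 ≤ s₁) (hs1 : s₁ ≤ kap Q) (hsk : s₀ ≤ kap Q) :
    GG P Q t₁ * GG P Q s₀ < GG P Q t₀ * GG P Q s₁ := by
  have hk := kap_pos hQ
  have hmono := Th_strictMono hQ hPQ
  have hpi := pi_pos
  have mt0 : t₀ ∈ Icc (-kap Q) (kap Q) := ⟨by linarith, by linarith⟩
  have mt1 : t₁ ∈ Icc (-kap Q) (kap Q) := ⟨by linarith, ht1⟩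
  have ms0 : s₀ ∈ Icc (-kap Q) (kap Q) := ⟨by linarith, hsk⟩
  have ms1 : s₁ ∈ Icc (-kap Q) (kap Q) := ⟨by linarith, hs1⟩
  have htt : t₀ < t₁ := (hmono.lt_iff_lt mt0 mt1).1 (by linarith)
  have hss : s₀ < s₁ := (hmono.lt_iff_lt ms0 ms1).1 (by linarith)
  have hTT : Th P Q t₀ < Th P Q s₀ := hmono mt0 ms0 h1
  have hts : t₁ < s₁ := (hmono.lt_iff_lt mt1 ms1).1 (by linarith)
  have hs0k : s₀ < kap Q := hss.trans_le hs1
  have key : log (GG P Q t₁) + log (GG P Q s₀) < log (GG P Q t₀) + log (GG P Q s₁) := by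
    simp only [log_GG]
    rcases le_or_gt t₁ s₀ with hc | hc
    · have a := FF_anti hQ hPQ (m := s₀) (s := t₀) (t := t₁) (by linarith) hs0k (by linarith)
        htt hc
      have b := FF_mono hQ hPQ (m := s₀) (s := s₀) (t := s₁) (by linarith) hs0k le_rfl hss hs1
      unfold FF at a b
      rw [ht] at a
      rw [hs] at b
      nlinarith
    · have a := FF_anti hQ hPQ (m := s₀) (s := t₀) (t := s₀) (by linarith) hs0k (by linarith)
        h1 le_rfl
      have b := FF_mono hQ hPQ (m := s₀) (s := t₁) (t := s₁) (by linarith) hs0k hc.le hts hs1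
      unfold FF at a b
      rw [ht] at b
      rw [hs] at b
      nlinarith
  have p1 := GG_pos hQ hPQ t₀
  have p2 := GG_pos hQ hPQ t₁
  have p3 := GG_pos hQ hPQ s₀
  have p4 := GG_pos hQ hPQ s₁
  rw [← log_mul p2.ne' p3.ne', ← log_mul p1.ne' p4.ne'] at key
  exact (log_lt_log_iff (by positivity) (by positivity)).1 key

end

end Pool.Agent.L7h26.NS
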