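import Mathlib
import Pool.Agent.L7h26.NS.Slice

/-! Moves along horizontal and vertical segments in `{0 < V}`,
`V (x, y) = cos (P x + φ₁) cos (Q y) + c cos (Q x) cos (P y + φ₂)`. -/

set_option autoImplicit false

open Real Set Filter Topology

namespace Pool.Agent.L7h26.NS

noncomputable def VV (P Q c φ₁ φ₂ : ℝ) (z : ℝ × ℝ) : ℝ :=
  cos (P * z.1 + φ₁) * cos (Q * z.2) + c * cos (Q * z.1) * cos (P * z.2 + φ₂)

lemma hmove {f : ℝ × ℝ → ℝ} {a b y : ℝ} (h : ∀ t ∈ uIcc a b, 0 < f (t, y)) :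
    JoinedIn {z | 0 < f z} (a, y) (b, y) := by
  apply JoinedIn.of_segment_subset
  intro z hz
  obtain ⟨u, v, hu, hv, huv, rfl⟩ := hz
  have e : u • ((a, y) : ℝ × ℝ) + v • ((b, y) : ℝ × ℝ) = (u * a + v * b, y) := by
    ext
    · simp
    · simp only [Prod.smul_mk, smul_eq_mul, Prod.mk_add_mk]
      rw [← add_mul, huv, one_mul]
  rw [e]
  apply h
  rw [← segment_eq_uIcc]
  exact ⟨u, v, hu, hv, huv, by simp⟩

lemma vmove {f : ℝ × ℝ → ℝ} {x a b : ℝ} (h : ∀ t ∈ uIcc a b, 0 < f (x, t)) :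
    JoinedIn {z | 0 < f z} (x, a) (x, b) := by
  apply JoinedIn.of_segment_subset
  intro z hz
  obtain ⟨u, v, hu, hv, huv, rfl⟩ := hz
  have e : u • ((x, a) : ℝ × ℝ) + v • ((x, b) : ℝ × ℝ) = (x, u * a + v * b) := by
    ext
    · simp only [Prod.smul_mk, smul_eq_mul, Prod.mk_add_mk]
      rw [← add_mul, huv, one_mul]
    · simp
  rw [e]
  apply h
  rw [← segment_eq_uIcc]
  exact ⟨u, v, hu, hv, huv, by simp⟩

/-- joined to a point of a centre row or of a pole row -/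
def Dn (P Q c φ₁ φ₂ : ℝ) (z : ℝ × ℝ) : Prop :=
  ∃ w : ℝ × ℝ, JoinedIn {z | 0 < VV P Q c φ₁ φ₂ z} z w ∧ (sin (Q * w.2) = 0 ∨ cos (Q * w.2) = 0)

section
variable {P Q c φ₁ φ₂ : ℝ}

lemma Dn.of_joined {z z' : ℝ × ℝ} (h : JoinedIn {z | 0 < VV P Q c φ₁ φ₂ z} z z')
    (h' : Dn P Q c φ₁ φ₂ z') : Dn P Q c φ₁ φ₂ z := by
  obtain ⟨w, h1, h2⟩ := h'
  exact ⟨w, h.trans h1, h2⟩

lemma VV_refl1 (z : ℝ × ℝ) : VV P Q c φ₁ φ₂ (-z.1, z.2) = VV P Q c (-φ₁) φ₂ z := by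
  unfold VV
  simp only [mul_neg, cos_neg]
  rw [show -(P * z.1) + φ₁ = -(P * z.1 + -φ₁) by ring, cos_neg]

lemma VV_refl2 (z : ℝ × ℝ) : VV P Q c φ₁ φ₂ (z.1, -z.2) = VV P Q c φ₁ (-φ₂) z := by
  unfold VV
  simp only [mul_neg, cos_neg]
  rw [show -(P * z.2) + φ₂ = -(P * z.2 + -φ₂) by ring, cos_neg]

lemma VV_shift1 (k : ℤ) (z : ℝ × ℝ) :
    VV P Q c (φ₁ - k * (2 * π)) φ₂ z = VV P Q c φ₁ φ₂ z := by
  unfold VV
  rw [show P * z.1 + (φ₁ - k * (2 * π)) = (P * z.1 + φ₁) - k * (2 * π) by ring,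
    cos_sub_int_mul_two_pi]

lemma VV_shift2 (k : ℤ) (z : ℝ × ℝ) :
    VV P Q c φ₁ (φ₂ - k * (2 * π)) z = VV P Q c φ₁ φ₂ z := by
  unfold VV
  rw [show P * z.2 + (φ₂ - k * (2 * π)) = (P * z.2 + φ₂) - k * (2 * π) by ring,
    cos_sub_int_mul_two_pi]

lemma Dn_refl1 {z : ℝ × ℝ} (h : Dn P Q c (-φ₁) φ₂ (-z.1, z.2)) : Dn P Q c φ₁ φ₂ z := by
  obtain ⟨w, h1, h2⟩ := h
  refine ⟨(-w.1, w.2), ?_, h2⟩
  have h3 := h1.map (f := fun z : ℝ × ℝ => (-z.1, z.2)) (by fun_prop)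
  have e : (-(-z.1, z.2).1, (-z.1, z.2).2) = z := by ext <;> simp
  rw [e] at h3
  refine h3.mono ?_
  rintro _ ⟨v, hv, rfl⟩
  simp only [mem_ofPred_eq] at hv ⊢
  rwa [VV_refl1]

lemma Dn_refl2 {z : ℝ × ℝ} (h : Dn P Q c φ₁ (-φ₂) (z.1, -z.2)) : Dn P Q c φ₁ φ₂ z := by
  obtain ⟨w, h1, h2⟩ := h
  refine ⟨(w.1, -w.2), ?_, by simpa using h2⟩
  have h3 := h1.map (f := fun z : ℝ × ℝ => (z.1, -z.2)) (by fun_prop)
  have e : ((z.1, -z.2).1, -(z.1, -z.2).2) = z := by ext <;> simp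
  rw [e] at h3
  refine h3.mono ?_
  rintro _ ⟨v, hv, rfl⟩
  simp only [mem_ofPred_eq] at hv ⊢
  rwa [VV_refl2]

lemma VV_eq (hQ : 0 < Q) {t τ : ℝ} (h1 : -kap Q < t) (h2 : t < kap Q) (h3 : -kap Q < τ)
    (h4 : τ < kap Q) : VV P Q c φ₁ φ₂ (t, τ) =
      cos (Q * t) * cos (Q * τ) * (gg P Q φ₁ t + c * gg P Q φ₂ τ) := by
  have a := cosQ_pos hQ h1 h2
  have b := cosQ_pos hQ h3 h4
  unfold VV gg
  dsimp only
  generalize cos (Q * t) = A at *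
  generalize cos (Q * τ) = B at *
  field_simp

lemma VV_pos_iff (hQ : 0 < Q) {t τ : ℝ} (h1 : -kap Q < t) (h2 : t < kap Q) (h3 : -kap Q < τ)
    (h4 : τ < kap Q) : 0 < VV P Q c φ₁ φ₂ (t, τ) ↔ 0 < gg P Q φ₁ t + c * gg P Q φ₂ τ := by
  rw [VV_eq hQ h1 h2 h3 h4]
  have a := cosQ_pos hQ h1 h2
  have b := cosQ_pos hQ h3 h4
  exact mul_pos_iff_of_pos_left (mul_pos a b)

lemma cos_kap_eq (hQ : 0 < Q) (φ : ℝ) :
    cos (P * kap Q + φ) = -sin (Th P Q (kap Q) + φ) := by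
  rw [Th_kap hQ, show P * kap Q + φ = (P * kap Q - π / 2 + φ) + π / 2 by ring,
    cos_add_pi_div_two]

/-- pole columns reach the centre -/
lemma pole_col (hQ : 0 < Q) (h : 0 < cos (P * kap Q + φ₁)) {τ : ℝ} (h3 : -kap Q < τ)
    (h4 : τ < kap Q) : Dn P Q c φ₁ φ₂ (kap Q, τ) := by
  refine ⟨(kap Q, 0), ?_, Or.inl (by simp)⟩
  apply vmove
  intro y hy
  have hk := kap_pos hQ
  have hy' : -kap Q < y ∧ y < kap Q := by
    rcases le_total τ 0 with hh | hh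
    · rw [uIcc_of_le hh] at hy; exact ⟨h3.trans_le hy.1, hy.2.trans_lt hk⟩
    · rw [uIcc_of_ge hh] at hy; exact ⟨(neg_lt_zero.2 hk).trans_le hy.1, hy.2.trans_lt h4⟩
  unfold VV
  simp only [cosQ_kap hQ]
  have := cosQ_pos hQ hy'.1 hy'.2
  have : 0 < cos (P * kap Q + φ₁) * cos (Q * y) := mul_pos h this
  simpa using this

/-- `-g` is bounded on `[0, τ]` -/
lemma bound (hQ : 0 < Q) (hPQ : Q < P) {φ τ y : ℝ} (hτ : τ < kap Q) (hy0 : 0 ≤ y)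
    (hy : y ≤ τ) : -gg P Q φ y ≤ max (P / Q) (-gg P Q φ τ) := by
  have hk := kap_pos hQ
  have h0τ : 0 ≤ τ := hy0.trans hy
  have hc := gg_cont (P := P) (φ := φ) hQ (s := 0) (neg_lt_zero.2 hk) hτ
  obtain ⟨m, hm, hmax⟩ := isCompact_Icc.exists_isMaxOn ⟨y, hy0, hy⟩ hc.neg
  have h1 : -gg P Q φ y ≤ -gg P Q φ m := hmax ⟨hy0, hy⟩
  have h1PQ : 1 ≤ P / Q := by rw [one_le_div hQ]; exact hPQ.le
  refine h1.trans ?_
  rcases eq_or_lt_of_le hm.1 with h | h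
  · rw [← h]
    refine le_max_of_le_left ?_
    unfold gg
    simp only [mul_zero, zero_add, cos_zero, div_one]
    linarith [neg_one_le_cos φ]
  rcases eq_or_lt_of_le hm.2 with h' | h'
  · rw [h']; exact le_max_right _ _
  refine le_max_of_le_left ?_
  have hcm := cosQ_pos hQ ((neg_lt_zero.2 hk).trans h) (h'.trans hτ)
  have hloc : IsLocalMax (fun x => -gg P Q φ x) m :=
    hmax.isLocalMax (Icc_mem_nhds h h')
  have hd := (hasDerivAt_gg hQ hPQ φ hcm.ne').neg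
  have h2 := hloc.hasDerivAt_eq_zero hd
  have hP : 0 < P := hQ.trans hPQ
  have hN := NN_pos hQ hPQ m
  have h3 : 0 < P * √(NN P Q m) / cos (Q * m) ^ 2 := by positivity
  have h4 : sin (Th P Q m + φ) = 0 := by
    by_contra hne
    apply hne
    have : P * √(NN P Q m) / cos (Q * m) ^ 2 * sin (Th P Q m + φ) = 0 := by linarith
    exact (mul_eq_zero.1 this).resolve_left h3.ne'
  rw [gg_eq hQ hPQ φ hcm.ne', h4]
  have h5 := GG_le hQ hPQ m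
  have h6 := GG_pos hQ hPQ m
  have h7 := neg_one_le_cos (Th P Q m + φ)
  nlinarith

lemma neg_pi_sin {x : ℝ} (h1 : -π ≤ x) (h2 : x ≤ 0) : sin x ≤ 0 :=
  sin_nonpos_of_nonpos_of_neg_pi_le h2 h1

/-- lower bound of `g` near the end of an ascent -/
lemma gg_lower (hQ : 0 < Q) (hPQ : Q < P) {φ t : ℝ} (h0 : 0 ≤ t) (h1 : t < kap Q)
    (hs : sin (Th P Q t + φ) ≤ 0) : GG P Q t * cos (Th P Q t + φ) ≤ gg P Q φ t := by
  have hk := kap_pos hQ
  have hc := cosQ_pos hQ ((neg_lt_zero.2 hk).trans_le h0) h1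
  rw [gg_eq hQ hPQ φ hc.ne']
  have hG := GG_pos hQ hPQ t
  have hr := ratio_pos hQ hPQ
  have hsin : 0 ≤ sin (Q * t) := by
    apply sin_nonneg_of_nonneg_of_le_pi (by positivity)
    have := Q_kap hQ
    nlinarith [pi_pos]
  have h5 : 0 ≤ sin (Q * t) / cos (Q * t) := by positivity
  have h6 : sin (Th P Q t + φ) * (sin (Q * t) / cos (Q * t)) ≤ 0 :=
    mul_nonpos_of_nonpos_of_nonneg hs h5
  have h7 : Q / P * (sin (Th P Q t + φ) * (sin (Q * t) / cos (Q * t))) ≤ 0 :=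
    mul_nonpos_of_nonneg_of_nonpos hr.le h6
  nlinarith

/-- there are points before `s` where `g` is larger than `A`, if the peak at `s` is larger -/
lemma exists_near (hQ : 0 < Q) (hPQ : Q < P) {φ s l A : ℝ} (hl : 0 ≤ l) (hls : l < s)
    (hs : s ≤ kap Q) (hT : Th P Q s + φ = 0) (hπ : -π ≤ Th P Q l + φ)
    (hA : A < GG P Q s) : ∃ t, l < t ∧ t < s ∧ A < gg P Q φ t := by
  have hk := kap_pos hQ
  have hcont : Continuous fun t => GG P Q t * cos (Th P Q t + φ) := by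
    have h1 := GG_cont hQ hPQ
    have h2 := Th_cont hQ hPQ
    fun_prop
  have hval : A < GG P Q s * cos (Th P Q s + φ) := by rw [hT, cos_zero, mul_one]; exact hA
  have h1 : ∀ᶠ t in 𝓝[<] s, A < GG P Q t * cos (Th P Q t + φ) :=
    (hcont.continuousAt.eventually (lt_mem_nhds hval)).filter_mono nhdsWithin_le_nhds
  have h2 : ∀ᶠ t in 𝓝[<] s, t ∈ Ioo l s := Ioo_mem_nhdsLT hls
  obtain ⟨t, ht1, ht2⟩ := (h1.and h2).exists
  refine ⟨t, ht2.1, ht2.2, ht1.trans_le ?_⟩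
  have hmono := Th_strictMono hQ hPQ
  have ml : l ∈ Icc (-kap Q) (kap Q) := ⟨by linarith, by linarith⟩
  have mt : t ∈ Icc (-kap Q) (kap Q) := ⟨by linarith [ht2.1], by linarith [ht2.2]⟩
  have ms : s ∈ Icc (-kap Q) (kap Q) := ⟨by linarith, hs⟩
  have a := hmono ml mt ht2.1
  have b := hmono mt ms ht2.2
  apply gg_lower hQ hPQ (hl.trans ht2.1.le) (ht2.2.trans_le hs)
  exact neg_pi_sin (by linarith) (by linarith)

/-- the case of a peak at a wall -/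
lemma wall_peak (hQ : 0 < Q) (hPQ : Q < P) (hc0 : 0 ≤ c) (hc1 : c < 1) {t τ : ℝ}
    (ht1 : -kap Q < t) (ht2 : t < kap Q) (hτ1 : 0 ≤ τ) (hτ2 : τ < kap Q)
    (h : 0 < gg P Q φ₁ t + c * gg P Q φ₂ τ) (hT : Th P Q (kap Q) + φ₁ = 0)
    (hπ : -π ≤ Th P Q t + φ₁) : Dn P Q c φ₁ φ₂ (t, τ) := by
  have hk := kap_pos hQ
  have hmono := Th_strictMono hQ hPQ
  have mt : t ∈ Icc (-kap Q) (kap Q) := ⟨ht1.le, ht2.le⟩
  have mk : kap Q ∈ Icc (-kap Q) (kap Q) := ⟨by linarith, le_rfl⟩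
  have hl : max t 0 < kap Q := max_lt ht2 hk
  have hπ' : -π ≤ Th P Q (max t 0) + φ₁ := by
    have := hmono.monotoneOn mt ⟨by linarith [le_max_right t 0], hl.le⟩ (le_max_left t 0)
    linarith
  have hPQ1 : 0 < P / Q := div_pos (hQ.trans hPQ) hQ
  have hA : c * (P / Q) < GG P Q (kap Q) := by rw [GG_kap hQ hPQ]; nlinarith
  obtain ⟨s, hs1, hs2, hs3⟩ := exists_near hQ hPQ (φ := φ₁) (le_max_right t 0) hl le_rfl hT hπ' hA
  have hts : t < s := (le_max_left _ _).trans_lt hs1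
  have h0s : 0 < s := (le_max_right t 0).trans_lt hs1
  have inc : ∀ x, t ≤ x → x < kap Q → gg P Q φ₁ t ≤ gg P Q φ₁ x := by
    intro x hx1 hx2
    apply gg_le hQ hPQ ht1 hx1 hx2
    intro y hy
    have my : y ∈ Icc (-kap Q) (kap Q) := ⟨by linarith [hy.1], by linarith [hy.2]⟩
    have a := hmono mt my hy.1
    have b := hmono my mk (hy.2.trans hx2)
    exact neg_pi_sin (by linarith) (by linarith)
  -- move to `(s, τ)`
  have j1 : JoinedIn {z | 0 < VV P Q c φ₁ φ₂ z} (t, τ) (s, τ) := by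
    apply hmove
    intro x hx
    rw [uIcc_of_le hts.le] at hx
    rw [VV_pos_iff hQ (by linarith [hx.1]) (by linarith [hx.2]) (by linarith) hτ2]
    have := inc x hx.1 (by linarith [hx.2])
    linarith
  have j2 : JoinedIn {z | 0 < VV P Q c φ₁ φ₂ z} (s, τ) (s, 0) := by
    apply vmove
    intro y hy
    rw [uIcc_of_ge hτ1] at hy
    rw [VV_pos_iff hQ (by linarith) hs2 (by linarith [hy.1]) (by linarith [hy.2])]
    have hb := bound hQ hPQ (φ := φ₂) hτ2 hy.1 hy.2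
    rcases le_max_iff.1 hb with hb | hb
    · nlinarith
    · have := inc s hts.le hs2
      nlinarith
  exact ⟨(s, 0), j1.trans j2, Or.inl (by simp)⟩

end

end Pool.Agent.L7h26.NS
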