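import Mathlib
import Pool.Agent.L7h26.NS.Walk

/-! The core of the argument: every point of a cell with `0 < V` is joined to a centre row
or to a pole row. -/

set_option autoImplicit false

open Real Set Filter Topology

namespace Pool.Agent.L7h26.NS

/-- the last zero -/
lemma last_zero {f : ℝ → ℝ} {τ y : ℝ} (hf : ContinuousOn f (Icc 0 τ)) (hτ : 0 < f τ)
    (hy0 : 0 ≤ y) (hy1 : y ≤ τ) (hy : f y ≤ 0) :
    ∃ y₀, 0 ≤ y₀ ∧ y₀ < τ ∧ f y₀ = 0 ∧ ∀ x, y₀ < x → x ≤ τ → 0 < f x := by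
  have h0τ : 0 ≤ τ := hy0.trans hy1
  set S : Set ℝ := Icc 0 τ ∩ f ⁻¹' (Iic 0) with hS
  have hSc : IsClosed S := hf.preimage_isClosed_of_isClosed isClosed_Icc isClosed_Iic
  have hne : S.Nonempty := ⟨y, ⟨hy0, hy1⟩, hy⟩
  have hbd : BddAbove S := ⟨τ, fun x hx => hx.1.2⟩
  have hmem : sSup S ∈ S := hSc.csSup_mem hne hbd
  set y₀ := sSup S with hy₀
  have hfy : f y₀ ≤ 0 := hmem.2
  have hlt : y₀ < τ := by
    rcases eq_or_lt_of_le hmem.1.2 with h | h
    · exfalso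
      have hfy' := hfy
      rw [h] at hfy'
      linarith
    · exact h
  have hpos : ∀ x, y₀ < x → x ≤ τ → 0 < f x := by
    intro x hx1 hx2
    by_contra hcon
    have : x ∈ S := ⟨⟨hmem.1.1.trans hx1.le, hx2⟩, not_lt.1 hcon⟩
    exact absurd (le_csSup hbd this) (not_le.2 hx1)
  refine ⟨y₀, hmem.1.1, hlt, le_antisymm hfy ?_, hpos⟩
  -- limit from the right
  have hcont : ContinuousWithinAt f (Ioc y₀ τ) y₀ :=
    (hf y₀ hmem.1).mono (fun x hx => ⟨hmem.1.1.trans hx.1.le, hx.2⟩)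
  have hne' : (𝓝[Ioc y₀ τ] y₀).NeBot := by
    rw [nhdsWithin_Ioc_eq_nhdsGT hlt]; infer_instance
  refine ge_of_tendsto hcont ?_
  filter_upwards [self_mem_nhdsWithin] with x hx
  exact (hpos x hx.1 hx.2).le

section
variable {P Q c φ₁ φ₂ : ℝ}

lemma ivt_Th (hQ : 0 < Q) (hPQ : Q < P) {a b v : ℝ} (hab : a ≤ b) (h1 : Th P Q a ≤ v)
    (h2 : v ≤ Th P Q b) : ∃ x, a ≤ x ∧ x ≤ b ∧ Th P Q x = v := by
  obtain ⟨x, hx, hv⟩ := intermediate_value_Icc hab (Th_cont hQ hPQ).continuousOn ⟨h1, h2⟩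
  exact ⟨x, hx.1, hx.2, hv⟩

/-- the main step -/
lemma core_step (hQ : 0 < Q) (hPQ : Q < P) (hc0 : 0 < c) (hc1 : c < 1) {ξ y₀ : ℝ}
    (hξ0 : 0 ≤ ξ) (hξ1 : ξ < kap Q) (hy0 : 0 ≤ y₀) (hy1 : y₀ < kap Q)
    (hψ1 : -π ≤ Th P Q y₀ + φ₂) (hψ2 : Th P Q y₀ + φ₂ ≤ 0)
    (hz : GG P Q ξ + c * gg P Q φ₂ y₀ = 0) :
    (0 < cos (P * kap Q + φ₂) ∧ ∀ y, y₀ < y → y < kap Q → gg P Q φ₂ y₀ < gg P Q φ₂ y) ∨
    (∃ ξ', ξ < ξ' ∧ ξ' < kap Q ∧ Th P Q ξ' = Th P Q ξ + π ∧ ∃ τ₂, y₀ < τ₂ ∧ τ₂ < kap Q ∧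
      GG P Q ξ' < c * gg P Q φ₂ τ₂ ∧ ∀ y, y₀ < y → y ≤ τ₂ → gg P Q φ₂ y₀ < gg P Q φ₂ y) := by
  have hk := kap_pos hQ
  have hpi := pi_pos
  have hmono := Th_strictMono hQ hPQ
  have mem : ∀ x : ℝ, 0 ≤ x → x ≤ kap Q → x ∈ Icc (-kap Q) (kap Q) :=
    fun x h1 h2 => ⟨by linarith, h2⟩
  have hGξ := one_le_GG hQ hPQ ξ
  have hg0 : gg P Q φ₂ y₀ < -1 := by
    by_contra hcon
    rw [not_lt] at hcon
    nlinarith
  have inc : ∀ y, y₀ < y → y < kap Q → Th P Q y + φ₂ ≤ 0 → gg P Q φ₂ y₀ < gg P Q φ₂ y := by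
    intro y h1 h2 h3
    apply gg_lt hQ hPQ (by linarith) h1 h2
    intro x hx
    have mx := mem x (hy0.trans hx.1.le) (hx.2.le.trans h2.le)
    have a := hmono (mem y₀ hy0 hy1.le) mx hx.1
    have b := hmono mx (mem y (hy0.trans h1.le) h2.le) hx.2
    exact sin_neg_of_neg_of_neg_pi_lt (by linarith) (by linarith)
  rcases lt_or_ge (Th P Q (kap Q) + φ₂) 0 with hcase | hcase
  · left
    constructor
    · rw [cos_kap_eq hQ]
      have a := hmono (mem y₀ hy0 hy1.le) (mem _ hk.le le_rfl) hy1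
      have := sin_neg_of_neg_of_neg_pi_lt (x := Th P Q (kap Q) + φ₂) hcase (by linarith)
      linarith
    · intro y h1 h2
      apply inc y h1 h2
      have := hmono (mem y (hy0.trans h1.le) h2.le) (mem _ hk.le le_rfl) h2
      linarith
  · right
    -- the preceding trough
    have hφ : φ₂ ≤ -π := by
      by_contra hcon
      rw [not_le] at hcon
      have : gg P Q φ₂ 0 ≤ gg P Q φ₂ y₀ := by
        apply gg_le hQ hPQ (by linarith) hy0 hy1
        intro x hx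
        have mx := mem x hx.1.le (hx.2.le.trans hy1.le)
        have a := hmono (mem 0 le_rfl hk.le) mx hx.1
        have b := hmono mx (mem y₀ hy0 hy1.le) hx.2
        rw [Th_zero] at a
        exact neg_pi_sin (by linarith) (by linarith)
      have h2 : gg P Q φ₂ 0 = cos φ₂ := by unfold gg; simp
      have := neg_one_le_cos φ₂
      linarith
    obtain ⟨η, hη0, hη1, hη⟩ := ivt_Th hQ hPQ (v := -π - φ₂) hy0
      (by rw [Th_zero]; linarith) (by linarith)
    have hηk : η < kap Q := hη1.trans_lt hy1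
    have hcη := cosQ_pos hQ (by linarith) hηk
    have hgη : gg P Q φ₂ η = -GG P Q η := by
      apply gg_trough hQ hPQ hcη.ne'
      rw [hη, show -π - φ₂ + φ₂ = -π by ring, cos_neg, cos_pi]
    have hle : gg P Q φ₂ η ≤ gg P Q φ₂ y₀ := by
      apply gg_le hQ hPQ (by linarith) hη1 hy1
      intro x hx
      have mx := mem x (hη0.trans hx.1.le) (hx.2.le.trans hy1.le)
      have a := hmono (mem η hη0 hηk.le) mx hx.1
      have b := hmono mx (mem y₀ hy0 hy1.le) hx.2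
      exact neg_pi_sin (by linarith) (by linarith)
    have hGη := GG_pos hQ hPQ η
    have hGle : GG P Q ξ ≤ c * GG P Q η := by nlinarith
    have hξη : ξ < η := by
      by_contra hcon
      rw [not_lt] at hcon
      have : GG P Q η ≤ GG P Q ξ := by
        rcases eq_or_lt_of_le hcon with h | h
        · rw [h]
        · exact (GG_lt hQ hPQ hη0 h hξ1.le).le
      nlinarith
    -- the next peak
    obtain ⟨s, hs0, hs1, hs⟩ := ivt_Th hQ hPQ (v := -φ₂) hy1.le (by linarith) (by linarith)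
    have hsη : Th P Q s = Th P Q η + π := by rw [hs, hη]; ring
    have hTξη := hmono (mem ξ hξ0 hξ1.le) (mem η hη0 hηk.le) hξη
    have hTsk := hmono.monotoneOn (mem s (hy0.trans hs0) hs1) (mem _ hk.le le_rfl) hs1
    obtain ⟨ξ', hξ'0, hξ'1, hξ'⟩ := ivt_Th hQ hPQ (v := Th P Q ξ + π) hξ1.le (by linarith)
      (by linarith)
    have hξξ' : ξ < ξ' := by
      rcases eq_or_lt_of_le hξ'0 with h | h
      · exfalso; rw [← h] at hξ'; linarith
      · exact h
    have hξ's : ξ' < s := (hmono.lt_iff_lt (mem ξ' (hξ0.trans hξ'0) hξ'1)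
      (mem s (hy0.trans hs0) hs1)).1 (by linarith)
    have hcmp := compare hQ hPQ hξ0 hξη hξ' hsη (hξ0.trans hξ'0) hξ'1 (hy0.trans hs0) hs1 hηk.le
    have hGs := GG_pos hQ hPQ s
    have hGξ' : GG P Q ξ' < c * GG P Q s := by
      have h1 : GG P Q ξ * GG P Q s ≤ c * GG P Q η * GG P Q s :=
        mul_le_mul_of_nonneg_right hGle hGs.le
      have h2 : GG P Q ξ' * GG P Q η < (c * GG P Q s) * GG P Q η := by nlinarith
      exact lt_of_mul_lt_mul_right h2 hGη.le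
    have hys : y₀ < s := by
      rcases eq_or_lt_of_le hs0 with h | h
      · exfalso
        have hcy := cosQ_pos hQ (by linarith) hy1
        have : gg P Q φ₂ y₀ = GG P Q y₀ := by
          apply gg_peak hQ hPQ hcy.ne'
          rw [h, hs, neg_add_cancel, cos_zero]
        have := GG_pos hQ hPQ y₀
        linarith
      · exact h
    obtain ⟨τ₂, h1, h2, h3⟩ := exists_near hQ hPQ (φ := φ₂) (A := GG P Q ξ' / c) hy0 hys hs1
      (by rw [hs]; ring) hψ1 (by rw [div_lt_iff₀ hc0]; linarith)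
    refine ⟨ξ', hξξ', hξ's.trans_le hs1, hξ', τ₂, h1, h2.trans_le hs1, ?_, ?_⟩
    · rw [div_lt_iff₀ hc0] at h3; linarith
    · intro y hy hy'
      apply inc y hy (hy'.trans_lt (h2.trans_le hs1))
      have := hmono.monotoneOn (mem y (hy0.trans hy.le) ((hy'.trans h2.le).trans hs1))
        (mem s (hy0.trans hs0) hs1) (hy'.trans h2.le)
      linarith

end

end Pool.Agent.L7h26.NS
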