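import Mathlib
import Pool.Agent.L7h26.NS.Core

/-! From a peak to a centre row or a pole row. -/

set_option autoImplicit false

open Real Set Filter Topology

namespace Pool.Agent.L7h26.NS

section
variable {P Q c φ₁ φ₂ : ℝ}

lemma Dn_shift1 (k : ℤ) (z : ℝ × ℝ) :
    Dn P Q c (φ₁ - k * (2 * π)) φ₂ z ↔ Dn P Q c φ₁ φ₂ z := by
  unfold Dn
  simp only [VV_shift1]

lemma Dn_shift2 (k : ℤ) (z : ℝ × ℝ) :
    Dn P Q c φ₁ (φ₂ - k * (2 * π)) z ↔ Dn P Q c φ₁ φ₂ z := by
  unfold Dn
  simp only [VV_shift2]

lemma gg_shift (φ : ℝ) (k : ℤ) (t : ℝ) : gg P Q (φ - k * (2 * π)) t = gg P Q φ t := by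
  unfold gg
  rw [show P * t + (φ - k * (2 * π)) = (P * t + φ) - k * (2 * π) by ring,
    cos_sub_int_mul_two_pi]

/-- a real number modulo `2 π` in `[-π, π)` -/
lemma exists_shift (x : ℝ) : ∃ k : ℤ, -π ≤ x - k * (2 * π) ∧ x - k * (2 * π) < π := by
  have h := toIcoMod_mem_Ico (b := x) two_pi_pos (a := -π)
  refine ⟨toIcoDiv two_pi_pos (-π) x, ?_⟩
  have e : x - (toIcoDiv two_pi_pos (-π) x : ℝ) * (2 * π) = toIcoMod two_pi_pos (-π) x := by
    rw [toIcoMod, zsmul_eq_mul]
  rw [e]
  refine ⟨h.1, ?_⟩
  have := h.2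
  linarith

set_option maxHeartbeats 2000000 in
lemma peak (hQ : 0 < Q) (hPQ : Q < P) (hc0 : 0 ≤ c) (hc1 : c < 1) (n : ℕ) :
    ∀ ξ τ φ₁ φ₂ : ℝ, 0 ≤ ξ → ξ < kap Q → 0 ≤ τ → τ < kap Q → Th P Q ξ + φ₁ = 0 →
      Th P Q (kap Q) - Th P Q ξ < 2 * π * n → 0 < GG P Q ξ + c * gg P Q φ₂ τ →
      Dn P Q c φ₁ φ₂ (ξ, τ) := by
  have hk := kap_pos hQ
  have hpi := pi_pos
  have hmono := Th_strictMono hQ hPQ
  have mem : ∀ x : ℝ, 0 ≤ x → x ≤ kap Q → x ∈ Icc (-kap Q) (kap Q) :=
    fun x h1 h2 => ⟨by linarith, h2⟩
  induction n with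
  | zero =>
    intro ξ τ φ₁ φ₂ h1 h2 h3 h4 h5 h6
    exfalso
    have := hmono (mem ξ h1 h2.le) (mem _ hk.le le_rfl) h2
    simp at h6
    linarith
  | succ n ih =>
    intro ξ τ φ₁ φ₂' hξ0 hξ1 hτ0 hτ1 hψ hn hpos
    have hcξ := cosQ_pos hQ (by linarith) hξ1
    have hgξ : gg P Q φ₁ ξ = GG P Q ξ := by
      apply gg_peak hQ hPQ hcξ.ne'
      rw [hψ, cos_zero]
    by_cases hall : ∀ y, 0 ≤ y → y ≤ τ → 0 < GG P Q ξ + c * gg P Q φ₂' y
    · refine ⟨(ξ, 0), ?_, Or.inl (by simp)⟩
      apply vmove
      intro y hy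
      rw [uIcc_of_ge hτ0] at hy
      rw [VV_pos_iff hQ (by linarith) hξ1 (by linarith [hy.1]) (by linarith [hy.2]), hgξ]
      exact hall y hy.1 hy.2
    · push Not at hall
      obtain ⟨y, hy0, hy1, hy⟩ := hall
      have hcont : ContinuousOn (fun y => GG P Q ξ + c * gg P Q φ₂' y) (Icc 0 τ) := by
        have := gg_cont (P := P) (φ := φ₂') hQ (s := 0) (neg_lt_zero.2 hk) hτ1
        fun_prop
      obtain ⟨y₀, h0, h1, h2, h3⟩ := last_zero hcont hpos hy0 hy1 hy
      have hy₀k : y₀ < kap Q := h1.trans hτ1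
      have hGξ := one_le_GG hQ hPQ ξ
      have hc : 0 < c := by
        rcases eq_or_lt_of_le hc0 with h | h
        · exfalso; rw [← h] at h2; linarith
        · exact h
      -- normalise the phase
      obtain ⟨k, hk1, hk2⟩ := exists_shift (Th P Q y₀ + φ₂')
      set φ₂ := φ₂' - k * (2 * π) with hφ₂
      have hgg : ∀ x, gg P Q φ₂' x = gg P Q φ₂ x := fun x => (gg_shift φ₂' k x).symm
      rw [← Dn_shift2 k, ← hφ₂]
      simp only [hgg] at h2 h3 hpos
      have e : Th P Q y₀ + φ₂' - k * (2 * π) = Th P Q y₀ + φ₂ := by rw [hφ₂]; ring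
      rw [e] at hk1 hk2
      have hψ2 : Th P Q y₀ + φ₂ ≤ 0 := by
        by_contra hcon
        rw [not_le] at hcon
        -- the function decreases after `y₀`
        have hcT : Continuous fun x => Th P Q x + φ₂ := by
          have := Th_cont hQ hPQ
          fun_prop
        have e1 : ∀ᶠ x in 𝓝[>] y₀, Th P Q x + φ₂ < π :=
          (hcT.continuousAt.eventually (gt_mem_nhds hk2)).filter_mono nhdsWithin_le_nhds
        have e2 : ∀ᶠ x in 𝓝[>] y₀, x ∈ Ioo y₀ τ := Ioo_mem_nhdsGT h1
        obtain ⟨x, hx1, hx2⟩ := (e1.and e2).exists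
        have hlt : gg P Q φ₂ x < gg P Q φ₂ y₀ := by
          apply gg_gt hQ hPQ (by linarith) hx2.1 (hx2.2.trans hτ1)
          intro w hw
          have mw := mem w (h0.trans hw.1.le) ((hw.2.le.trans hx2.2.le).trans hτ1.le)
          have a := hmono (mem y₀ h0 hy₀k.le) mw hw.1
          have b := hmono mw (mem x (h0.trans hx2.1.le) (hx2.2.le.trans hτ1.le)) hw.2
          exact sin_pos_of_pos_of_lt_pi (by linarith) (by linarith)
        have := h3 x hx2.1 hx2.2.le
        nlinarith
      rcases core_step hQ hPQ hc hc1 hξ0 hξ1 h0 hy₀k hk1 hψ2 h2 with ⟨ha, hb⟩ | ⟨ξ', hξξ', hξ'k, hTξ', τ₂, hτ₂0, hτ₂k, hG, hinc⟩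
      · -- pole row
        refine ⟨(ξ, kap Q), ?_, Or.inr (cosQ_kap hQ)⟩
        apply vmove
        intro x hx
        rw [uIcc_of_le hτ1.le] at hx
        rcases eq_or_lt_of_le hx.2 with h | h
        · rw [h]
          unfold VV
          simp only [cosQ_kap hQ, mul_zero, zero_add]
          positivity
        · rw [VV_pos_iff hQ (by linarith) hξ1 (by linarith [hx.1]) h, hgξ]
          have := hb x (h1.trans_le hx.1) h
          nlinarith
      · have j1 : JoinedIn {z | 0 < VV P Q c φ₁ φ₂ z} (ξ, τ) (ξ, τ₂) := by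
          apply vmove
          intro x hx
          have hx0 : y₀ < x := by
            have := hx.1
            have h4 : y₀ < min τ τ₂ := lt_min h1 hτ₂0
            exact h4.trans_le this
          have hxk : x < kap Q := lt_of_le_of_lt hx.2 (max_lt hτ1 hτ₂k)
          rw [VV_pos_iff hQ (by linarith) hξ1 (by linarith) hxk, hgξ]
          rcases le_max_iff.1 hx.2 with h | h
          · exact h3 x hx0 h
          · have := hinc x hx0 h
            nlinarith
        have hξ'0 : 0 ≤ ξ' := hξ0.trans hξξ'.le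
        have hcξ' := cosQ_pos hQ (by linarith) hξ'k
        have hgξ' : gg P Q φ₁ ξ' = -GG P Q ξ' := by
          apply gg_trough hQ hPQ hcξ'.ne'
          rw [hTξ', show Th P Q ξ + π + φ₁ = (Th P Q ξ + φ₁) + π by ring, hψ, zero_add, cos_pi]
        -- the row `τ₂`
        have hrow : ∀ x, ξ ≤ x → x < kap Q → Th P Q x + φ₁ ≤ 2 * π → -GG P Q ξ' ≤ gg P Q φ₁ x := by
          intro x hx1 hx2 hx3
          rw [← hgξ']
          rcases le_total x ξ' with h | h
          · apply gg_ge hQ hPQ (by linarith) h hξ'k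
            intro w hw
            have mw := mem w (by linarith [hw.1]) (by linarith [hw.2])
            have a := hmono.monotoneOn (mem ξ hξ0 hξ1.le) mw (by linarith [hw.1])
            have b := hmono mw (mem ξ' hξ'0 hξ'k.le) hw.2
            exact sin_nonneg_of_nonneg_of_le_pi (by linarith) (by linarith)
          · apply gg_le hQ hPQ (by linarith) h hx2
            intro w hw
            have mw := mem w (by linarith [hw.1]) (by linarith [hw.2])
            have a := hmono (mem ξ' hξ'0 hξ'k.le) mw hw.1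
            have b := hmono mw (mem x (by linarith) hx2.le) hw.2
            have e1 : sin (Th P Q w + φ₁) = sin ((Th P Q w + φ₁) - 2 * π) := by
              rw [sin_sub_two_pi]
            rw [e1]
            exact neg_pi_sin (by linarith) (by linarith)
        have hTξ'φ : Th P Q ξ' + φ₁ = π := by linarith
        have hTk : π < Th P Q (kap Q) + φ₁ := by
          have := hmono (mem ξ' hξ'0 hξ'k.le) (mem _ hk.le le_rfl) hξ'k
          linarith
        have hτ₂n : 0 ≤ τ₂ := h0.trans hτ₂0.le
        rcases lt_trichotomy (Th P Q (kap Q) + φ₁) (2 * π) with hcase | hcase | hcase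
        · -- the column at the pole
          have hcos : 0 < cos (P * kap Q + φ₁) := by
            rw [cos_kap_eq hQ]
            have e1 : sin (Th P Q (kap Q) + φ₁) = sin ((Th P Q (kap Q) + φ₁) - 2 * π) := by
              rw [sin_sub_two_pi]
            rw [e1]
            have := sin_neg_of_neg_of_neg_pi_lt (x := (Th P Q (kap Q) + φ₁) - 2 * π)
              (by linarith) (by linarith)
            linarith
          have j2 : JoinedIn {z | 0 < VV P Q c φ₁ φ₂ z} (ξ, τ₂) (kap Q, τ₂) := by
            apply hmove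
            intro x hx
            rw [uIcc_of_le hξ1.le] at hx
            rcases eq_or_lt_of_le hx.2 with h | h
            · rw [h]
              unfold VV
              simp only [cosQ_kap hQ]
              have := cosQ_pos hQ (t := τ₂) (by linarith) hτ₂k
              have : 0 < cos (P * kap Q + φ₁) * cos (Q * τ₂) := mul_pos hcos this
              simpa using this
            · rw [VV_pos_iff hQ (by linarith [hx.1]) h (by linarith) hτ₂k]
              have mx := mem x (hξ0.trans hx.1) h.le
              have b := hmono mx (mem _ hk.le le_rfl) h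
              have := hrow x hx.1 h (by linarith)
              linarith
          exact Dn.of_joined (j1.trans j2) (pole_col hQ hcos (by linarith) hτ₂k)
        · -- a wall
          have j2 : JoinedIn {z | 0 < VV P Q c φ₁ φ₂ z} (ξ, τ₂) (ξ', τ₂) := by
            apply hmove
            intro x hx
            rw [uIcc_of_le hξξ'.le] at hx
            rw [VV_pos_iff hQ (by linarith [hx.1]) (by linarith [hx.2]) (by linarith) hτ₂k]
            have mx := mem x (hξ0.trans hx.1) (hx.2.trans hξ'k.le)
            have b := hmono.monotoneOn mx (mem ξ' hξ'0 hξ'k.le) hx.2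
            have := hrow x hx.1 (hx.2.trans_lt hξ'k) (by linarith)
            linarith
          refine Dn.of_joined (j1.trans j2) ?_
          rw [← Dn_shift1 1]
          apply wall_peak hQ hPQ hc0 hc1 (by linarith) hξ'k hτ₂n hτ₂k
          · rw [gg_shift, hgξ']; linarith
          · push_cast; linarith
          · push_cast; linarith
        · -- the next peak
          obtain ⟨ξ'', h4, h5, h6⟩ := ivt_Th hQ hPQ (v := 2 * π - φ₁) hξ'k.le (by linarith)
            (by linarith)
          have hξ''k : ξ'' < kap Q := by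
            rcases eq_or_lt_of_le h5 with h | h
            · exfalso; rw [h] at h6; linarith
            · exact h
          have hξ''0 : 0 ≤ ξ'' := hξ'0.trans h4
          have hcξ'' := cosQ_pos hQ (by linarith) hξ''k
          have hgξ'' : gg P Q φ₁ ξ'' = GG P Q ξ'' := by
            apply gg_peak hQ hPQ hcξ''.ne'
            rw [h6, sub_add_cancel, cos_two_pi]
          have hGG : GG P Q ξ < GG P Q ξ'' := GG_lt hQ hPQ hξ0 (hξξ'.trans_le h4) h5
          have j2 : JoinedIn {z | 0 < VV P Q c φ₁ φ₂ z} (ξ, τ₂) (ξ'', τ₂) := by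
            apply hmove
            intro x hx
            rw [uIcc_of_le (hξξ'.le.trans h4)] at hx
            rw [VV_pos_iff hQ (by linarith [hx.1]) (by linarith [hx.2]) (by linarith) hτ₂k]
            have mx := mem x (hξ0.trans hx.1) (hx.2.trans h5)
            have b := hmono.monotoneOn mx (mem ξ'' hξ''0 h5) hx.2
            have := hrow x hx.1 (hx.2.trans_lt hξ''k) (by linarith)
            linarith
          have j3 : JoinedIn {z | 0 < VV P Q c φ₁ φ₂ z} (ξ'', τ₂) (ξ'', y₀) := by
            apply vmove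
            intro x hx
            rw [uIcc_of_ge hτ₂0.le] at hx
            rw [VV_pos_iff hQ (by linarith) hξ''k (by linarith [hx.1]) (by linarith [hx.2]), hgξ'']
            rcases eq_or_lt_of_le hx.1 with h | h
            · rw [← h]; linarith
            · have := hinc x h hx.2
              nlinarith
          refine Dn.of_joined ((j1.trans j2).trans j3) ?_
          rw [← Dn_shift1 1]
          apply ih ξ'' y₀ _ φ₂ hξ''0 hξ''k h0 hy₀k
          · push_cast; linarith
          · push_cast at hn ⊢; linarith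
          · linarith

end

end Pool.Agent.L7h26.NS
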