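import Mathlib
import Pool.Agent.L7h26.NS.Peak

/-! From any point of a cell to a centre row or a pole row. -/

set_option autoImplicit false

open Real Set Filter Topology

namespace Pool.Agent.L7h26.NS

section
variable {P Q c φ₁ φ₂ : ℝ}

/-- peaks with any sign of the abscissa -/
lemma peak' (hQ : 0 < Q) (hPQ : Q < P) (hc0 : 0 ≤ c) (hc1 : c < 1) {ξ τ : ℝ}
    (h1 : -kap Q < ξ) (h2 : ξ < kap Q) (h3 : 0 ≤ τ) (h4 : τ < kap Q)
    (h5 : Th P Q ξ + φ₁ = 0) (h6 : 0 < GG P Q ξ + c * gg P Q φ₂ τ) :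
    Dn P Q c φ₁ φ₂ (ξ, τ) := by
  have key : ∀ ξ φ₁ : ℝ, 0 ≤ ξ → ξ < kap Q → Th P Q ξ + φ₁ = 0 →
      0 < GG P Q ξ + c * gg P Q φ₂ τ → Dn P Q c φ₁ φ₂ (ξ, τ) := by
    intro ξ φ₁ h1 h2 h5 h6
    obtain ⟨n, hn⟩ := exists_nat_gt ((Th P Q (kap Q) - Th P Q ξ) / (2 * π))
    rw [div_lt_iff₀ two_pi_pos] at hn
    exact peak hQ hPQ hc0 hc1 n ξ τ φ₁ φ₂ h1 h2 h3 h4 h5 (by linarith) h6
  rcases le_total 0 ξ with h | h
  · exact key ξ φ₁ h h2 h5 h6
  · apply Dn_refl1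
    apply key (-ξ) (-φ₁) (by linarith) (by linarith)
    · rw [Th_neg]; linarith
    · unfold GG at *
      rwa [NN_neg]

/-- ascent to the right -/
lemma ascent (hQ : 0 < Q) (hPQ : Q < P) (hc0 : 0 ≤ c) (hc1 : c < 1) {t τ : ℝ}
    (ht1 : -kap Q < t) (ht2 : t < kap Q) (hτ1 : 0 ≤ τ) (hτ2 : τ < kap Q)
    (h : 0 < gg P Q φ₁ t + c * gg P Q φ₂ τ) (hπ : -π ≤ Th P Q t + φ₁)
    (h0 : Th P Q t + φ₁ ≤ 0) : Dn P Q c φ₁ φ₂ (t, τ) := by
  have hk := kap_pos hQ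
  have hmono := Th_strictMono hQ hPQ
  have mt : t ∈ Icc (-kap Q) (kap Q) := ⟨ht1.le, ht2.le⟩
  have mk : kap Q ∈ Icc (-kap Q) (kap Q) := ⟨by linarith, le_rfl⟩
  have inc : ∀ x, t ≤ x → x < kap Q → Th P Q x + φ₁ ≤ 0 → gg P Q φ₁ t ≤ gg P Q φ₁ x := by
    intro x hx1 hx2 hx3
    apply gg_le hQ hPQ ht1 hx1 hx2
    intro y hy
    have my : y ∈ Icc (-kap Q) (kap Q) := ⟨by linarith [hy.1], by linarith [hy.2]⟩
    have a := hmono mt my hy.1
    have b := hmono my ⟨by linarith, hx2.le⟩ hy.2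
    exact neg_pi_sin (by linarith) (by linarith)
  rcases lt_trichotomy (Th P Q (kap Q) + φ₁) 0 with hcase | hcase | hcase
  · have hcos : 0 < cos (P * kap Q + φ₁) := by
      rw [cos_kap_eq hQ]
      have := hmono mt mk ht2
      have := sin_neg_of_neg_of_neg_pi_lt (x := Th P Q (kap Q) + φ₁) hcase (by linarith)
      linarith
    have j : JoinedIn {z | 0 < VV P Q c φ₁ φ₂ z} (t, τ) (kap Q, τ) := by
      apply hmove
      intro x hx
      rw [uIcc_of_le ht2.le] at hx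
      rcases eq_or_lt_of_le hx.2 with h' | h'
      · rw [h']
        unfold VV
        simp only [cosQ_kap hQ]
        have := cosQ_pos hQ (t := τ) (by linarith) hτ2
        have : 0 < cos (P * kap Q + φ₁) * cos (Q * τ) := mul_pos hcos this
        simpa using this
      · rw [VV_pos_iff hQ (by linarith [hx.1]) h' (by linarith) hτ2]
        have mx : x ∈ Icc (-kap Q) (kap Q) := ⟨by linarith [hx.1], h'.le⟩
        have b := hmono mx mk h'
        have := inc x hx.1 h' (by linarith)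
        linarith
    exact Dn.of_joined j (pole_col hQ hcos (by linarith) hτ2)
  · exact wall_peak hQ hPQ hc0 hc1 ht1 ht2 hτ1 hτ2 h hcase hπ
  · obtain ⟨ξ, h1, h2, h3⟩ := ivt_Th hQ hPQ (v := -φ₁) ht2.le (by linarith) (by linarith)
    have hξk : ξ < kap Q := by
      rcases eq_or_lt_of_le h2 with h' | h'
      · exfalso; rw [h'] at h3; linarith
      · exact h'
    have hcξ := cosQ_pos hQ (by linarith) hξk
    have hgξ : gg P Q φ₁ ξ = GG P Q ξ := by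
      apply gg_peak hQ hPQ hcξ.ne'
      rw [h3, neg_add_cancel, cos_zero]
    have j : JoinedIn {z | 0 < VV P Q c φ₁ φ₂ z} (t, τ) (ξ, τ) := by
      apply hmove
      intro x hx
      rw [uIcc_of_le h1] at hx
      rw [VV_pos_iff hQ (by linarith [hx.1]) (by linarith [hx.2]) (by linarith) hτ2]
      have mx : x ∈ Icc (-kap Q) (kap Q) := ⟨by linarith [hx.1], by linarith [hx.2]⟩
      have mξ : ξ ∈ Icc (-kap Q) (kap Q) := ⟨by linarith, h2⟩
      have b := hmono.monotoneOn mx mξ hx.2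
      have := inc x hx.1 (by linarith [hx.2]) (by linarith)
      linarith
    refine Dn.of_joined j (peak' hQ hPQ hc0 hc1 (by linarith) hξk hτ1 hτ2 (by linarith) ?_)
    have := inc ξ h1 hξk (by linarith)
    linarith

/-- every point of the open cell -/
lemma cell (hQ : 0 < Q) (hPQ : Q < P) (hc0 : 0 ≤ c) (hc1 : c < 1) {t τ : ℝ}
    (ht1 : -kap Q < t) (ht2 : t < kap Q) (hτ1 : -kap Q < τ) (hτ2 : τ < kap Q)
    (h : 0 < VV P Q c φ₁ φ₂ (t, τ)) : Dn P Q c φ₁ φ₂ (t, τ) := by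
  have key1 : ∀ (φ₁ φ₂ t τ : ℝ), -kap Q < t → t < kap Q → 0 ≤ τ → τ < kap Q →
      0 < VV P Q c φ₁ φ₂ (t, τ) → -π ≤ Th P Q t + φ₁ → Th P Q t + φ₁ ≤ 0 →
      Dn P Q c φ₁ φ₂ (t, τ) := by
    intro φ₁ φ₂ t τ h1 h2 h3 h4 h5 h6 h7
    rw [VV_pos_iff hQ h1 h2 (by have := kap_pos hQ; linarith) h4] at h5
    exact ascent hQ hPQ hc0 hc1 h1 h2 h3 h4 h5 h6 h7
  have key2 : ∀ (φ₁ φ₂ t τ : ℝ), -kap Q < t → t < kap Q → 0 ≤ τ → τ < kap Q →
      0 < VV P Q c φ₁ φ₂ (t, τ) → Dn P Q c φ₁ φ₂ (t, τ) := by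
    intro φ₁ φ₂ t τ h1 h2 h3 h4 h5
    obtain ⟨k, hk1, hk2⟩ := exists_shift (Th P Q t + φ₁)
    rw [← Dn_shift1 k]
    rw [← VV_shift1 k] at h5
    rcases le_or_gt (Th P Q t + φ₁ - k * (2 * π)) 0 with h | h
    · exact key1 _ _ _ _ h1 h2 h3 h4 h5 (by linarith) (by linarith)
    · apply Dn_refl1
      apply key1 _ _ _ _ (by simpa using h2) (by simpa using (neg_lt.1 h1)) h3 h4
      · have := VV_refl1 (P := P) (Q := Q) (c := c) (φ₁ := φ₁ - k * (2 * π)) (φ₂ := φ₂) (-t, τ)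
        simp only [neg_neg] at this
        rw [← this]
        exact h5
      · rw [Th_neg]; linarith
      · rw [Th_neg]; linarith
  rcases le_total 0 τ with h' | h'
  · exact key2 _ _ _ _ ht1 ht2 h' hτ2 h
  · apply Dn_refl2
    apply key2 _ _ _ _ ht1 ht2 (by simpa using h') (by simpa using (neg_lt.1 hτ1))
    have := VV_refl2 (P := P) (Q := Q) (c := c) (φ₁ := φ₁) (φ₂ := φ₂) (t, -τ)
    simp only [neg_neg] at this
    rw [← this]
    exact h

end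

end Pool.Agent.L7h26.NS
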