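import Mathlib
import Pool.Agent.L7h26.NS.Frame

/-! The statement in the plane: every point with `0 < V` is joined to a lattice point. -/

set_option autoImplicit false

open Real Set Filter Topology

namespace Pool.Agent.L7h26.NS

/-- joined to a point of a centre row -/
def Cn (P Q c φ₁ φ₂ : ℝ) (z : ℝ × ℝ) : Prop :=
  ∃ w : ℝ × ℝ, JoinedIn {z | 0 < VV P Q c φ₁ φ₂ z} z w ∧ sin (Q * w.2) = 0

section
variable {P Q c φ₁ φ₂ : ℝ}

lemma Cn.of_joined {z z' : ℝ × ℝ} (h : JoinedIn {z | 0 < VV P Q c φ₁ φ₂ z} z z')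
    (h' : Cn P Q c φ₁ φ₂ z') : Cn P Q c φ₁ φ₂ z := by
  obtain ⟨w, h1, h2⟩ := h'
  exact ⟨w, h.trans h1, h2⟩

lemma Cn_refl1 {z : ℝ × ℝ} (h : Cn P Q c (-φ₁) φ₂ (-z.1, z.2)) : Cn P Q c φ₁ φ₂ z := by
  obtain ⟨w, h1, h2⟩ := h
  refine ⟨(-w.1, w.2), ?_, h2⟩
  have h3 := h1.map (f := fun z : ℝ × ℝ => (-z.1, z.2)) (by fun_prop)
  have e : (-(-z.1, z.2).1, (-z.1, z.2).2) = z := by ext <;> simp
  rw [e] at h3
  refine h3.mono ?_
  rintro _ ⟨v, hv, rfl⟩
  simp only [mem_ofPred_eq] at hv ⊢
  rwa [VV_refl1]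

lemma cos_shift (hQ : 0 < Q) (x : ℝ) (n : ℤ) :
    cos (Q * (x + n * (π / Q))) = (-1) ^ n * cos (Q * x) := by
  rw [show Q * (x + n * (π / Q)) = Q * x + n * π by field_simp, cos_add_int_mul_pi]

lemma sin_shift (hQ : 0 < Q) (x : ℝ) (n : ℤ) :
    sin (Q * (x + n * (π / Q))) = (-1) ^ n * sin (Q * x) := by
  rw [show Q * (x + n * (π / Q)) = Q * x + n * π by field_simp, sin_add_int_mul_pi]

lemma VV_translate (hQ : 0 < Q) (m n : ℤ) (z : ℝ × ℝ) :
    VV P Q c φ₁ φ₂ (z.1 + m * (π / Q), z.2 + n * (π / Q)) =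
      VV P Q c (φ₁ + P * (m * (π / Q)) + n * π) (φ₂ + P * (n * (π / Q)) + m * π) z := by
  unfold VV
  simp only
  rw [cos_shift hQ, cos_shift hQ,
    show P * z.1 + (φ₁ + P * (m * (π / Q)) + n * π) =
      (P * (z.1 + m * (π / Q)) + φ₁) + n * π by ring,
    show P * z.2 + (φ₂ + P * (n * (π / Q)) + m * π) =
      (P * (z.2 + n * (π / Q)) + φ₂) + m * π by ring,
    cos_add_int_mul_pi, cos_add_int_mul_pi]
  ring

lemma joined_translate (hQ : 0 < Q) (m n : ℤ) {z w : ℝ × ℝ}
    (h : JoinedIn {z | 0 < VV P Q c (φ₁ + P * (m * (π / Q)) + n * π)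
      (φ₂ + P * (n * (π / Q)) + m * π) z} z w) :
    JoinedIn {z | 0 < VV P Q c φ₁ φ₂ z} (z.1 + m * (π / Q), z.2 + n * (π / Q))
      (w.1 + m * (π / Q), w.2 + n * (π / Q)) := by
  have h3 := h.map (f := fun z : ℝ × ℝ => (z.1 + m * (π / Q), z.2 + n * (π / Q))) (by fun_prop)
  refine h3.mono ?_
  rintro _ ⟨v, hv, rfl⟩
  simp only [mem_ofPred_eq] at hv ⊢
  rwa [VV_translate hQ]

lemma Cn_translate (hQ : 0 < Q) (m n : ℤ) {z : ℝ × ℝ}
    (h : Cn P Q c (φ₁ + P * (m * (π / Q)) + n * π) (φ₂ + P * (n * (π / Q)) + m * π) z) :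
    Cn P Q c φ₁ φ₂ (z.1 + m * (π / Q), z.2 + n * (π / Q)) := by
  obtain ⟨w, h1, h2⟩ := h
  refine ⟨_, joined_translate hQ m n h1, ?_⟩
  simp only
  rw [sin_shift hQ, h2, mul_zero]

lemma two_kap (hQ : 0 < Q) : 2 * kap Q = π / Q := by unfold kap; field_simp

/-- a pole row next to a pole column which is not a wall -/
lemma pole_row_frame (hQ : 0 < Q) (hc : 0 < c) {t : ℝ} (ht1 : -kap Q < t) (ht2 : t < kap Q)
    (h2 : 0 < cos (P * kap Q + φ₂)) (h1 : cos (P * kap Q + φ₁) ≠ 0) :
    Cn P Q c φ₁ φ₂ (t, kap Q) := by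
  have hk := kap_pos hQ
  -- the row itself
  have row : ∀ s, t ≤ s → s < kap Q → JoinedIn {z | 0 < VV P Q c φ₁ φ₂ z} (t, kap Q) (s, kap Q) := by
    intro s hs1 hs2
    apply hmove
    intro x hx
    rw [uIcc_of_le hs1] at hx
    unfold VV
    simp only [cosQ_kap hQ, mul_zero, zero_add]
    have := cosQ_pos hQ (t := x) (by linarith [hx.1]) (by linarith [hx.2])
    positivity
  have hcont2 : Continuous fun y => cos (P * y + φ₂) := by fun_prop
  have e2 : ∀ᶠ y in 𝓝 (kap Q), 0 < cos (P * y + φ₂) := hcont2.continuousAt.eventually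
    (lt_mem_nhds h2)
  obtain ⟨d2, hd2, hd2'⟩ := Metric.eventually_nhds_iff.1 e2
  rcases lt_or_gt_of_ne h1 with hA | hA
  · -- upwards
    have hcont1 : Continuous fun y => cos (P * y + φ₁) := by fun_prop
    have e1 : ∀ᶠ y in 𝓝 (kap Q), cos (P * y + φ₁) < 0 := hcont1.continuousAt.eventually
      (gt_mem_nhds hA)
    obtain ⟨d1, hd1, hd1'⟩ := Metric.eventually_nhds_iff.1 e1
    set δ := min (min (d1 / 2) (d2 / 2)) (kap Q / 2) with hδ
    have hδ0 : 0 < δ := by positivity
    have hδ1 : δ < d1 := lt_of_le_of_lt ((min_le_left _ _).trans (min_le_left _ _)) (by linarith)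
    have hδ2 : δ < d2 := lt_of_le_of_lt ((min_le_left _ _).trans (min_le_right _ _)) (by linarith)
    have hδ3 : δ ≤ kap Q / 2 := min_le_right _ _
    set s := max t (kap Q - δ) with hs
    have hs1 : t ≤ s := le_max_left _ _
    have hs2 : s < kap Q := max_lt ht2 (by linarith)
    have hs3 : kap Q - δ ≤ s := le_max_right _ _
    have n1 : ∀ x, kap Q - δ ≤ x → x ≤ kap Q → cos (P * x + φ₁) < 0 := by
      intro x h1 h2
      apply hd1'
      rw [Real.dist_eq, abs_lt]
      constructor <;> linarith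
    have n2 : ∀ y, kap Q ≤ y → y ≤ kap Q + δ → 0 < cos (P * y + φ₂) := by
      intro y h1 h2
      apply hd2'
      rw [Real.dist_eq, abs_lt]
      constructor <;> linarith
    have ncos : ∀ y, kap Q ≤ y → y ≤ 3 * kap Q → cos (Q * y) ≤ 0 := by
      intro y h1 h2
      apply cos_nonpos_of_pi_div_two_le_of_le
      · rw [← Q_kap hQ]; exact mul_le_mul_of_nonneg_left h1 hQ.le
      · have := mul_le_mul_of_nonneg_left h2 hQ.le
        have h3 := Q_kap hQ
        nlinarith
    have ncos' : ∀ y, kap Q < y → y < 3 * kap Q → cos (Q * y) < 0 := by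
      intro y h1 h2
      apply cos_neg_of_pi_div_two_lt_of_lt
      · rw [← Q_kap hQ]; exact mul_lt_mul_of_pos_left h1 hQ
      · have := mul_lt_mul_of_pos_left h2 hQ
        have h3 := Q_kap hQ
        nlinarith
    have j2 : JoinedIn {z | 0 < VV P Q c φ₁ φ₂ z} (s, kap Q) (s, kap Q + δ) := by
      apply vmove
      intro y hy
      rw [uIcc_of_le (by linarith)] at hy
      unfold VV
      simp only
      have a := n1 s hs3 hs2.le
      have b := ncos y hy.1 (by linarith [hy.2])
      have d := n2 y hy.1 hy.2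
      have e := cosQ_pos hQ (t := s) (by linarith) hs2
      have f : 0 ≤ cos (P * s + φ₁) * cos (Q * y) := mul_nonneg_of_nonpos_of_nonpos a.le b
      positivity
    have j3 : JoinedIn {z | 0 < VV P Q c φ₁ φ₂ z} (s, kap Q + δ) (kap Q, kap Q + δ) := by
      apply hmove
      intro x hx
      rw [uIcc_of_le hs2.le] at hx
      unfold VV
      simp only
      have a := n1 x (by linarith [hx.1]) hx.2
      have b := ncos' (kap Q + δ) (by linarith) (by linarith)
      have d := n2 (kap Q + δ) (by linarith) le_rfl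
      have e := cosQ_nonneg hQ (t := x) (by linarith [hx.1]) hx.2
      have f : 0 < cos (P * x + φ₁) * cos (Q * (kap Q + δ)) := mul_pos_of_neg_of_neg a b
      positivity
    refine ⟨(kap Q, 2 * kap Q), (((row s hs1 hs2).trans j2).trans j3).trans ?_, ?_⟩
    · apply vmove
      intro y hy
      rw [uIcc_of_le (by linarith)] at hy
      unfold VV
      simp only [cosQ_kap hQ]
      have b := ncos' y (by linarith [hy.1]) (by linarith [hy.2])
      have f : 0 < cos (P * kap Q + φ₁) * cos (Q * y) := mul_pos_of_neg_of_neg hA b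
      simpa using f
    · simp only
      rw [show Q * (2 * kap Q) = π by rw [two_kap hQ]; field_simp, sin_pi]
  · -- downwards
    have hcont1 : Continuous fun y => cos (P * y + φ₁) := by fun_prop
    have e1 : ∀ᶠ y in 𝓝 (kap Q), 0 < cos (P * y + φ₁) := hcont1.continuousAt.eventually
      (lt_mem_nhds hA)
    obtain ⟨d1, hd1, hd1'⟩ := Metric.eventually_nhds_iff.1 e1
    set δ := min (min (d1 / 2) (d2 / 2)) (kap Q / 2) with hδ
    have hδ0 : 0 < δ := by positivity
    have hδ1 : δ < d1 := lt_of_le_of_lt ((min_le_left _ _).trans (min_le_left _ _)) (by linarith)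
    have hδ2 : δ < d2 := lt_of_le_of_lt ((min_le_left _ _).trans (min_le_right _ _)) (by linarith)
    have hδ3 : δ ≤ kap Q / 2 := min_le_right _ _
    set s := max t (kap Q - δ) with hs
    have hs1 : t ≤ s := le_max_left _ _
    have hs2 : s < kap Q := max_lt ht2 (by linarith)
    have hs3 : kap Q - δ ≤ s := le_max_right _ _
    have n1 : ∀ x, kap Q - δ ≤ x → x ≤ kap Q → 0 < cos (P * x + φ₁) := by
      intro x h1 h2
      apply hd1'
      rw [Real.dist_eq, abs_lt]
      constructor <;> linarith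
    have n2 : ∀ y, kap Q - δ ≤ y → y ≤ kap Q → 0 < cos (P * y + φ₂) := by
      intro y h1 h2
      apply hd2'
      rw [Real.dist_eq, abs_lt]
      constructor <;> linarith
    have j2 : JoinedIn {z | 0 < VV P Q c φ₁ φ₂ z} (s, kap Q) (s, kap Q - δ) := by
      apply vmove
      intro y hy
      rw [uIcc_of_ge (by linarith)] at hy
      unfold VV
      simp only
      have a := n1 s hs3 hs2.le
      have b := cosQ_nonneg hQ (t := y) (by linarith [hy.1]) hy.2
      have d := n2 y hy.1 hy.2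
      have e := cosQ_pos hQ (t := s) (by linarith) hs2
      positivity
    have j3 : JoinedIn {z | 0 < VV P Q c φ₁ φ₂ z} (s, kap Q - δ) (kap Q, kap Q - δ) := by
      apply hmove
      intro x hx
      rw [uIcc_of_le hs2.le] at hx
      unfold VV
      simp only
      have a := n1 x (by linarith [hx.1]) hx.2
      have b := cosQ_pos hQ (t := kap Q - δ) (by linarith) (by linarith)
      have d := n2 (kap Q - δ) le_rfl (by linarith)
      have e := cosQ_nonneg hQ (t := x) (by linarith [hx.1]) hx.2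
      positivity
    refine ⟨(kap Q, 0), (((row s hs1 hs2).trans j2).trans j3).trans ?_, by simp⟩
    apply vmove
    intro y hy
    rw [uIcc_of_ge (by linarith)] at hy
    unfold VV
    simp only [cosQ_kap hQ]
    have b := cosQ_pos hQ (t := y) (by linarith [hy.1]) (by linarith [hy.2])
    have f : 0 < cos (P * kap Q + φ₁) * cos (Q * y) := mul_pos hA b
    simpa using f

/-- coordinates in a cell -/
lemma exists_cell (hQ : 0 < Q) (x : ℝ) : ∃ (m : ℤ) (t : ℝ), x = t + m * (π / Q) ∧
    -kap Q ≤ t ∧ t ≤ kap Q := by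
  have hpi := pi_pos
  refine ⟨round (x / (π / Q)), x - round (x / (π / Q)) * (π / Q), by ring, ?_, ?_⟩
  all_goals
    have h := abs_sub_round (x / (π / Q))
    rw [abs_le] at h
    have h3 : 0 < π / Q := by positivity
    have e : x = (x / (π / Q)) * (π / Q) := by field_simp
    have hk : kap Q = (1 / 2) * (π / Q) := by rw [← two_kap hQ]; ring
    rw [hk]
    nlinarith [h.1, h.2]

lemma cos_eq_zero_of_kap (hQ : 0 < Q) {t : ℝ} (h : t = kap Q ∨ t = -kap Q) :
    cos (Q * t) = 0 := by
  rcases h with h | h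
  · rw [h, cosQ_kap hQ]
  · rw [h, mul_neg, cos_neg, cosQ_kap hQ]

/-- the statement without frames: centre rows -/
lemma plane_centre (hQ : 0 < Q) (hPQ : Q < P) (hc0 : 0 ≤ c) (hc1 : c < 1)
    (hW : ∀ x y, cos (Q * x) = 0 → cos (Q * y) = 0 → cos (P * y + φ₂) ≠ 0 →
      cos (P * x + φ₁) ≠ 0 ∨ cos (P * (x + π / Q) + φ₁) ≠ 0)
    {z : ℝ × ℝ} (h : 0 < VV P Q c φ₁ φ₂ z) : Cn P Q c φ₁ φ₂ z := by
  have hk := kap_pos hQ
  -- pole rows
  have hrow : ∀ z : ℝ × ℝ, 0 < VV P Q c φ₁ φ₂ z → cos (Q * z.2) = 0 → Cn P Q c φ₁ φ₂ z := by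
    rintro ⟨x, y⟩ hz hy
    simp only at hy
    obtain ⟨m, t, hx, ht1, ht2⟩ := exists_cell hQ x
    obtain ⟨n, τ, hy', hτ1, hτ2⟩ := exists_cell hQ y
    -- choose `τ = κ`
    have hτ : τ = kap Q ∨ τ = -kap Q := by
      rw [hy', cos_shift hQ] at hy
      have h1 : cos (Q * τ) = 0 := by
        rcases mul_eq_zero.1 hy with h' | h'
        · exact absurd h' (by exact zpow_ne_zero _ (by norm_num))
        · exact h'
      by_contra hcon
      push Not at hcon
      have := cosQ_pos hQ (lt_of_le_of_ne hτ1 (Ne.symm hcon.2)) (lt_of_le_of_ne hτ2 hcon.1)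
      linarith
    obtain ⟨n', hn'⟩ : ∃ n' : ℤ, y = kap Q + n' * (π / Q) := by
      rcases hτ with h' | h'
      · exact ⟨n, by rw [hy', h']⟩
      · refine ⟨n - 1, ?_⟩
        rw [hy', h']
        push_cast
        rw [← two_kap hQ]; ring
    subst hx
    subst hn'
    have ht : -kap Q < t ∧ t < kap Q := by
      by_contra hcon
      have h' : t = kap Q ∨ t = -kap Q := by
        rw [not_and_or, not_lt, not_lt] at hcon
        rcases hcon with h' | h'
        · right; linarith
        · left; linarith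
      have h1 := cos_eq_zero_of_kap hQ h'
      have h2 : cos (Q * (t + m * (π / Q))) = 0 := by rw [cos_shift hQ, h1, mul_zero]
      unfold VV at hz
      simp only [h2, hy] at hz
      simp at hz
    have hz' := hz
    have e := VV_translate (P := P) (c := c) (φ₁ := φ₁) (φ₂ := φ₂) hQ m n' (t, kap Q)
    simp only at e
    rw [e] at hz'
    have hz2 : 0 < c * cos (Q * t) * cos (P * kap Q + (φ₂ + P * (n' * (π / Q)) + m * π)) := by
      unfold VV at hz'
      simp only [cosQ_kap hQ, mul_zero, zero_add] at hz'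
      exact hz'
    have hct := cosQ_pos hQ ht.1 ht.2
    have hc : 0 < c := by
      rcases eq_or_lt_of_le hc0 with h' | h'
      · rw [← h'] at hz2; simp at hz2
      · exact h'
    have h2 : 0 < cos (P * kap Q + (φ₂ + P * (n' * (π / Q)) + m * π)) := by
      by_contra hcon
      rw [not_lt] at hcon
      have : c * cos (Q * t) * cos (P * kap Q + (φ₂ + P * (n' * (π / Q)) + m * π)) ≤ 0 :=
        mul_nonpos_of_nonneg_of_nonpos (by positivity) hcon
      linarith
    have key := Cn_translate (P := P) (c := c) (φ₁ := φ₁) (φ₂ := φ₂) hQ m n' (z := (t, kap Q))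
    simp only at key
    apply key
    have hW' := hW (-kap Q + m * (π / Q)) (kap Q + n' * (π / Q))
      (by rw [cos_shift hQ, mul_neg, cos_neg, cosQ_kap hQ, mul_zero]) hy
      (by
        intro h0
        rw [show P * kap Q + (φ₂ + P * (n' * (π / Q)) + m * π) =
          (P * (kap Q + n' * (π / Q)) + φ₂) + m * π by ring, cos_add_int_mul_pi, h0,
          mul_zero] at h2
        exact lt_irrefl _ h2)
    rw [show -kap Q + m * (π / Q) + π / Q = kap Q + m * (π / Q) by rw [← two_kap hQ]; ring] at hW'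
    have f1 : ∀ s : ℝ, cos (P * s + (φ₁ + P * (m * (π / Q)) + n' * π)) =
        (-1) ^ n' * cos (P * (s + m * (π / Q)) + φ₁) := by
      intro s
      rw [← cos_add_int_mul_pi]
      congr 1
      ring
    have hne : ∀ n' : ℤ, ((-1 : ℝ)) ^ n' ≠ 0 := fun n' => zpow_ne_zero _ (by norm_num)
    rcases hW' with h' | h'
    · -- the left pole column
      apply Cn_refl1
      apply pole_row_frame hQ hc (by simpa using ht.2) (by simpa using (neg_lt.1 ht.1)) h2
      have : cos (P * kap Q + -(φ₁ + P * (m * (π / Q)) + n' * π)) =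
          cos (P * (-kap Q) + (φ₁ + P * (m * (π / Q)) + n' * π)) := by
        rw [← cos_neg]; congr 1; ring
      rw [this, f1]
      exact mul_ne_zero (hne _) h'
    · apply pole_row_frame hQ hc ht.1 ht.2 h2
      rw [f1]
      exact mul_ne_zero (hne _) h'
  -- the general point
  obtain ⟨x, y⟩ := z
  obtain ⟨m, t, hx, ht1, ht2⟩ := exists_cell hQ x
  obtain ⟨n, τ, hy, hτ1, hτ2⟩ := exists_cell hQ y
  by_cases hy0 : cos (Q * y) = 0
  · exact hrow _ h hy0
  have hτ : -kap Q < τ ∧ τ < kap Q := by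
    by_contra hcon
    have h' : τ = kap Q ∨ τ = -kap Q := by
      rw [not_and_or, not_lt, not_lt] at hcon
      rcases hcon with h' | h'
      · right; linarith
      · left; linarith
    apply hy0
    rw [hy, cos_shift hQ, cos_eq_zero_of_kap hQ h', mul_zero]
  subst hx
  subst hy
  have e := VV_translate (P := P) (c := c) (φ₁ := φ₁) (φ₂ := φ₂) hQ m n (t, τ)
  simp only at e
  have h' := h
  rw [e] at h'
  by_cases hx0 : cos (Q * t) = 0
  · -- pole column
    have key := Cn_translate (P := P) (c := c) (φ₁ := φ₁) (φ₂ := φ₂) hQ m n (z := (t, τ))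
    simp only at key
    apply key
    refine ⟨(t, 0), ?_, by simp⟩
    apply vmove
    intro y hy
    have hct := cosQ_pos hQ hτ.1 hτ.2
    unfold VV at h' ⊢
    simp only [hx0, mul_zero, zero_mul, add_zero] at h' ⊢
    have h1 : 0 < cos (P * t + (φ₁ + P * (m * (π / Q)) + n * π)) :=
      (pos_iff_pos_of_mul_pos h').2 hct
    have hy' : -kap Q < y ∧ y < kap Q := by
      rcases le_total τ 0 with hh | hh
      · rw [uIcc_of_le hh] at hy; exact ⟨by linarith [hy.1, hτ.1], by linarith [hy.2]⟩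
      · rw [uIcc_of_ge hh] at hy; exact ⟨by linarith [hy.1], by linarith [hy.2, hτ.2]⟩
    exact mul_pos h1 (cosQ_pos hQ hy'.1 hy'.2)
  · have ht : -kap Q < t ∧ t < kap Q := by
      by_contra hcon
      have h' : t = kap Q ∨ t = -kap Q := by
        rw [not_and_or, not_lt, not_lt] at hcon
        rcases hcon with h' | h'
        · right; linarith
        · left; linarith
      exact hx0 (cos_eq_zero_of_kap hQ h')
    obtain ⟨w, hw1, hw2⟩ := cell hQ hPQ hc0 hc1 ht.1 ht.2 hτ.1 hτ.2 h'
    have hj := joined_translate (P := P) (c := c) (φ₁ := φ₁) (φ₂ := φ₂) hQ m n hw1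
    simp only at hj
    rcases hw2 with hw2 | hw2
    · exact ⟨_, hj, by simp only; rw [sin_shift hQ, hw2, mul_zero]⟩
    · refine Cn.of_joined hj (hrow _ hj.target_mem ?_)
      simp only
      rw [cos_shift hQ, hw2, mul_zero]

end

end Pool.Agent.L7h26.NS
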