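import Mathlib
import Pool.Agent.L7h26.NS.Plane

/-! One dimensional slices and the final statement in the plane. -/

set_option autoImplicit false

open Real Set Filter Topology

namespace Pool.Agent.L7h26.NS

lemma arccos_anti {Q k : ℝ} (hQ : 0 ≤ Q) (hk : |k| < 1) :
    Antitone fun x => arccos (-(k * cos (Q * x))) - Q * x := by
  have hw : ∀ x, |k * cos (Q * x)| < 1 := by
    intro x
    rw [abs_mul]
    have := abs_cos_le_one (Q * x)
    have h0 := abs_nonneg k
    nlinarith [abs_nonneg (cos (Q * x))]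
  have hd : ∀ x, HasDerivAt (fun x => arccos (-(k * cos (Q * x))) - Q * x)
      (-(1 / √(1 - (-(k * cos (Q * x))) ^ 2)) * -(k * (-sin (Q * x) * Q)) - Q) x := by
    intro x
    have h1 := abs_lt.1 (hw x)
    have hc : HasDerivAt (fun t => cos (Q * t)) (-sin (Q * x) * Q) x := by
      have := (hasDerivAt_id x).const_mul Q
      simpa using (this.cos)
    have h2 := (hc.const_mul k).neg
    have h3 := (hasDerivAt_arccos (x := -(k * cos (Q * x))) (by intro h; linarith [h1.1, h1.2])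
      (by intro h; linarith [h1.1, h1.2])).comp x h2
    have h4 : HasDerivAt (fun x => Q * x) Q x := by simpa using (hasDerivAt_id x).const_mul Q
    exact h3.sub h4
  apply antitone_of_deriv_nonpos
  · intro x; exact (hd x).differentiableAt
  · intro x
    rw [(hd x).deriv]
    have h1 : 0 < 1 - (-(k * cos (Q * x))) ^ 2 := by
      have := hw x
      have h2 : (k * cos (Q * x)) ^ 2 < 1 := by
        rw [← sq_abs]; nlinarith [abs_nonneg (k * cos (Q * x))]
      nlinarith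
    have h2 : -(k * sin (Q * x)) ≤ √(1 - (-(k * cos (Q * x))) ^ 2) := by
      apply le_sqrt_of_sq_le
      have h3 : k ^ 2 ≤ 1 := by rw [← sq_abs]; nlinarith [abs_nonneg k]
      have h4 := sin_sq_add_cos_sq (Q * x)
      have h5 : (-(k * sin (Q * x))) ^ 2 + (-(k * cos (Q * x))) ^ 2 = k ^ 2 := by
        linear_combination k ^ 2 * h4
      linarith
    have h3 : 0 < √(1 - (-(k * cos (Q * x))) ^ 2) := by positivity
    have h4 : -(1 / √(1 - (-(k * cos (Q * x))) ^ 2)) * -(k * (-sin (Q * x) * Q)) =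
        (-(k * sin (Q * x)) / √(1 - (-(k * cos (Q * x))) ^ 2)) * Q := by ring
    rw [h4]
    have h5 : -(k * sin (Q * x)) / √(1 - (-(k * cos (Q * x))) ^ 2) ≤ 1 := by
      rw [div_le_one h3]; exact h2
    nlinarith

/-- the one dimensional lemma, when the phase is in `[0, π]` -/
lemma slice_aux {P Q k φ x₀ : ℝ} (hQ : 0 ≤ Q) (hPQ : Q < P) (hk : |k| < 1)
    (h : 0 < cos (P * x₀ + φ) + k * cos (Q * x₀)) (h0 : 0 ≤ P * x₀ + φ)
    (h1 : P * x₀ + φ ≤ π) :
    ∃ x₁, cos (P * x₁ + φ) = 1 ∧ ∀ x ∈ uIcc x₀ x₁, 0 < cos (P * x + φ) + k * cos (Q * x) := by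
  have hP : 0 < P := hQ.trans_lt hPQ
  refine ⟨-φ / P, ?_, ?_⟩
  · rw [show P * (-φ / P) + φ = 0 by field_simp; ring, cos_zero]
  have hle : -φ / P ≤ x₀ := by rw [div_le_iff₀ hP]; linarith
  intro x hx
  rw [uIcc_of_ge hle] at hx
  by_contra hcon
  rw [not_lt] at hcon
  have hx1 : 0 ≤ P * x + φ := by
    have := hx.1
    rw [div_le_iff₀ hP] at this
    linarith
  have hx2 : P * x + φ ≤ P * x₀ + φ := by nlinarith [hx.2]
  have hw : ∀ x, |k * cos (Q * x)| < 1 := by
    intro x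
    rw [abs_mul]
    have := abs_cos_le_one (Q * x)
    have h0 := abs_nonneg k
    nlinarith [abs_nonneg (cos (Q * x))]
  have hA := arccos_anti hQ hk hx.2
  simp only at hA
  have h3 : arccos (-(k * cos (Q * x))) ≤ P * x + φ := by
    rw [← arccos_cos hx1 (hx2.trans h1)]
    exact antitone_arccos (by linarith)
  have h4 : P * x₀ + φ < arccos (-(k * cos (Q * x₀))) := by
    have a := abs_lt.1 (hw x₀)
    have e : P * x₀ + φ = arccos (cos (P * x₀ + φ)) := (arccos_cos h0 h1).symm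
    rw [e]
    apply strictAntiOn_arccos ⟨by linarith [a.1, a.2], by linarith [a.1, a.2]⟩
      ⟨neg_one_le_cos _, cos_le_one _⟩
    linarith
  have h5 : P * (x₀ - x) < Q * (x₀ - x) := by nlinarith
  have h6 : 0 ≤ x₀ - x := by linarith [hx.2]
  nlinarith

lemma slice {P Q k φ x₀ : ℝ} (hQ : 0 ≤ Q) (hPQ : Q < P) (hk : |k| < 1)
    (h : 0 < cos (P * x₀ + φ) + k * cos (Q * x₀)) :
    ∃ x₁, cos (P * x₁ + φ) = 1 ∧ ∀ x ∈ uIcc x₀ x₁, 0 < cos (P * x + φ) + k * cos (Q * x) := by
  obtain ⟨m, hm1, hm2⟩ := exists_shift (P * x₀ + φ)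
  have e : ∀ x, cos (P * x + φ) = cos (P * x + (φ - m * (2 * π))) := by
    intro x
    rw [show P * x + (φ - m * (2 * π)) = (P * x + φ) - m * (2 * π) by ring,
      cos_sub_int_mul_two_pi]
  simp only [e] at h ⊢
  set ψ := φ - m * (2 * π) with hψ
  have e2 : P * x₀ + φ - m * (2 * π) = P * x₀ + ψ := by rw [hψ]; ring
  rw [e2] at hm1 hm2
  rcases le_total 0 (P * x₀ + ψ) with h0 | h0
  · exact slice_aux hQ hPQ hk h h0 hm2.le
  · have r : ∀ x, cos (P * x + ψ) = cos (P * (-x) + -ψ) := by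
      intro x; rw [← cos_neg]; congr 1; ring
    have r2 : ∀ x, cos (Q * x) = cos (Q * (-x)) := by intro x; rw [mul_neg, cos_neg]
    rw [r, r2] at h
    obtain ⟨x₁, a, b⟩ := slice_aux hQ hPQ hk h (by linarith) (by linarith)
    refine ⟨-x₁, ?_, ?_⟩
    · rw [r, neg_neg, a]
    · intro x hx
      have := b (-x) (by
        rw [← neg_neg x₁] 
        rw [Set.mem_uIcc] at hx ⊢
        rcases hx with hx | hx
        · right; constructor <;> linarith [hx.1, hx.2]
        · left; constructor <;> linarith [hx.1, hx.2])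
      rw [r, r2]
      exact this

section
variable {P Q c φ₁ φ₂ : ℝ}

/-- every point of the plane with `0 < V` is joined to a lattice point -/
theorem plane (hQ : 0 < Q) (hPQ : Q < P) (hc0 : 0 ≤ c) (hc1 : c < 1)
    (hW : ∀ x y, cos (Q * x) = 0 → cos (Q * y) = 0 → cos (P * y + φ₂) ≠ 0 →
      cos (P * x + φ₁) ≠ 0 ∨ cos (P * (x + π / Q) + φ₁) ≠ 0)
    {z : ℝ × ℝ} (h : 0 < VV P Q c φ₁ φ₂ z) :
    ∃ w : ℝ × ℝ, JoinedIn {z | 0 < VV P Q c φ₁ φ₂ z} z w ∧ sin (Q * w.2) = 0 ∧
      sin (P * w.1 + φ₁) = 0 := by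
  obtain ⟨⟨x, y⟩, h1, h2⟩ := plane_centre hQ hPQ hc0 hc1 hW h
  simp only at h2
  have h3 : 0 < VV P Q c φ₁ φ₂ (x, y) := h1.target_mem
  have hk : |c * cos (P * y + φ₂)| < 1 := by
    rw [abs_mul, abs_of_nonneg hc0]
    have := abs_cos_le_one (P * y + φ₂)
    nlinarith [abs_nonneg (cos (P * y + φ₂))]
  have hsq := sin_sq_add_cos_sq (Q * y)
  have hcos : cos (Q * y) = 1 ∨ cos (Q * y) = -1 := by
    have : cos (Q * y) ^ 2 = 1 := by rw [h2] at hsq; linarith
    have h0 : (cos (Q * y) - 1) * (cos (Q * y) + 1) = 0 := by linear_combination this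
    rcases mul_eq_zero.1 h0 with h' | h'
    · left; linarith
    · right; linarith
  have sn : ∀ x : ℝ, cos x = 1 → sin x = 0 := by
    intro x hx
    have := sin_sq_add_cos_sq x
    rw [hx] at this
    nlinarith
  rcases hcos with hcos | hcos
  · have e : ∀ x, VV P Q c φ₁ φ₂ (x, y) =
        cos (P * x + φ₁) + c * cos (P * y + φ₂) * cos (Q * x) := by
      intro x
      unfold VV
      simp only [hcos]
      ring
    rw [e] at h3
    obtain ⟨x₁, a, b⟩ := slice hQ.le hPQ hk h3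
    refine ⟨(x₁, y), h1.trans (hmove ?_), h2, sn _ a⟩
    intro t ht
    rw [e]
    exact b t ht
  · have e : ∀ x, VV P Q c φ₁ φ₂ (x, y) =
        cos (P * x + (φ₁ + π)) + c * cos (P * y + φ₂) * cos (Q * x) := by
      intro x
      unfold VV
      simp only [hcos]
      rw [← add_assoc, cos_add_pi]
      ring
    rw [e] at h3
    obtain ⟨x₁, a, b⟩ := slice hQ.le hPQ hk h3
    refine ⟨(x₁, y), h1.trans (hmove ?_), h2, ?_⟩
    · intro t ht
      rw [e]
      exact b t ht
    · have := sn _ a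
      rw [← add_assoc, sin_add_pi] at this
      simpa using this

/-- the case `Q = 0` -/
theorem plane_zero (hP : 0 < P) (hc0 : 0 ≤ c) (hc1 : c < 1)
    {z : ℝ × ℝ} (h : 0 < VV P 0 c φ₁ φ₂ z) :
    ∃ w : ℝ × ℝ, JoinedIn {z | 0 < VV P 0 c φ₁ φ₂ z} z w ∧ w.2 = 0 ∧
      sin (P * w.1 + φ₁) = 0 := by
  obtain ⟨x, y⟩ := z
  have hk : ∀ y, |c * cos (P * y + φ₂)| < 1 := by
    intro y
    rw [abs_mul, abs_of_nonneg hc0]
    have := abs_cos_le_one (P * y + φ₂)
    nlinarith [abs_nonneg (cos (P * y + φ₂))]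
  have e : ∀ x y, VV P 0 c φ₁ φ₂ (x, y) =
      cos (P * x + φ₁) + c * cos (P * y + φ₂) * cos (0 * x) := by
    intro x y
    unfold VV
    simp
  rw [e] at h
  obtain ⟨x₁, a, b⟩ := slice le_rfl hP (hk y) h
  refine ⟨(x₁, 0), (hmove (y := y) ?_).trans (vmove ?_), rfl, ?_⟩
  · intro t ht
    rw [e]
    exact b t ht
  · intro t _
    rw [e, a]
    have := abs_lt.1 (hk t)
    simp only [zero_mul, cos_zero, mul_one]
    linarith [this.1]
  · have := sin_sq_add_cos_sq (P * x₁ + φ₁)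
    rw [a] at this
    simp only
    nlinarith

end

end Pool.Agent.L7h26.NS
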