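import Mathlib
import Pool.Agent.L7h26.NS.Row

/-! Counting nodal domains in the square. -/

set_option autoImplicit false

open Real Set Filter Topology

namespace Pool.Agent.L7h26.NS

/-- the open square `(0, π)²` -/
def Om : Set (ℝ × ℝ) := Ioo 0 π ×ˢ Ioo 0 π

/-- the nodal domains: connected components of `Ω \ {u = 0}` -/
def nodalDomains (u : ℝ × ℝ → ℝ) : Set (Set (ℝ × ℝ)) :=
  {C | ∃ z ∈ Om \ {z | u z = 0}, C = connectedComponentIn (Om \ {z | u z = 0}) z}

/-- `a cos px cos qy + b cos qx cos py` -/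
noncomputable def UU (p q : ℕ) (a b : ℝ) (z : ℝ × ℝ) : ℝ :=
  a * (cos (p * z.1) * cos (q * z.2)) + b * (cos (q * z.1) * cos (p * z.2))

noncomputable def fold (z : ℝ × ℝ) : ℝ × ℝ := (arccos (cos z.1), arccos (cos z.2))

lemma cos_fold (n : ℕ) (x : ℝ) : cos (n * arccos (cos x)) = cos (n * x) := by
  have h1 := Polynomial.Chebyshev.T_real_cos (arccos (cos x)) (n : ℤ)
  have h2 := Polynomial.Chebyshev.T_real_cos x (n : ℤ)
  rw [cos_arccos (neg_one_le_cos x) (cos_le_one x)] at h1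
  push_cast at h1 h2
  rw [← h1, h2]

lemma UU_fold (p q : ℕ) (a b : ℝ) (z : ℝ × ℝ) : UU p q a b (fold z) = UU p q a b z := by
  unfold UU fold
  simp only [cos_fold]

lemma fold_cont : Continuous fold := by
  unfold fold
  fun_prop

lemma fold_of_mem {z : ℝ × ℝ} (hz : z ∈ Om) : fold z = z := by
  unfold fold
  rw [arccos_cos hz.1.1.le hz.1.2.le, arccos_cos hz.2.1.le hz.2.2.le]

lemma UU_cont (p q : ℕ) (a b : ℝ) : Continuous (UU p q a b) := by
  unfold UU
  fun_prop

/-- contraction towards the centre -/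
noncomputable def con (ε : ℝ) (z : ℝ × ℝ) : ℝ × ℝ :=
  ((1 - ε) * z.1 + ε * (π / 2), (1 - ε) * z.2 + ε * (π / 2))

lemma con_mem {ε : ℝ} (h0 : 0 < ε) (h1 : ε ≤ 1) {z : ℝ × ℝ} (hz1 : z.1 ∈ Icc 0 π)
    (hz2 : z.2 ∈ Icc 0 π) : con ε z ∈ Om := by
  have hp := pi_pos
  have e1 : 0 ≤ 1 - ε := by linarith
  refine ⟨⟨?_, ?_⟩, ⟨?_, ?_⟩⟩ <;> simp only [con]
  · have := mul_nonneg e1 hz1.1
    nlinarith
  · have := mul_le_mul_of_nonneg_left hz1.2 e1
    nlinarith
  · have := mul_nonneg e1 hz2.1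
    nlinarith
  · have := mul_le_mul_of_nonneg_left hz2.2 e1
    nlinarith

lemma con_mem' {ε : ℝ} (h0 : 0 ≤ ε) (h1 : ε ≤ 1) {z : ℝ × ℝ} (hz : z ∈ Om) : con ε z ∈ Om := by
  rcases eq_or_lt_of_le h0 with h | h
  · rw [← h]
    have : con 0 z = z := by unfold con; simp
    rwa [this]
  · exact con_mem h h1 ⟨hz.1.1.le, hz.1.2.le⟩ ⟨hz.2.1.le, hz.2.2.le⟩

/-- a path in the plane gives a connection in the open square -/
lemma to_square {p q : ℕ} {a b s : ℝ} {z w : ℝ × ℝ} (hz : z ∈ Om)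
    (h : JoinedIn {z | 0 < s * UU p q a b z} z w) :
    ∀ᶠ ε in 𝓝[>] (0 : ℝ), con ε (fold w) ∈
      connectedComponentIn (Om \ {z | UU p q a b z = 0}) z := by
  obtain ⟨γ, hγ⟩ := h
  have hcont : Continuous fun x : ℝ × unitInterval => s * UU p q a b (con x.1 (fold (γ x.2))) := by
    have h1 := UU_cont p q a b
    have h2 := fold_cont
    have h3 : Continuous fun x : ℝ × unitInterval => con x.1 (fold (γ x.2)) := by
      unfold con
      have h4 : Continuous fun x : ℝ × unitInterval => fold (γ x.2) := by fun_prop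
      fun_prop
    fun_prop
  have hev : ∀ᶠ ε in 𝓝 (0 : ℝ), ∀ t ∈ (univ : Set unitInterval),
      0 < s * UU p q a b (con ε (fold (γ t))) := by
    apply IsCompact.eventually_forall_of_forall_eventually isCompact_univ
    intro t _
    have : 0 < s * UU p q a b (con (0 : ℝ) (fold (γ t))) := by
      have e : con (0 : ℝ) (fold (γ t)) = fold (γ t) := by unfold con; simp
      rw [e, UU_fold]
      exact hγ t
    exact (hcont.continuousAt (x := ((0 : ℝ), t))).eventually (lt_mem_nhds this)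
  obtain ⟨d, hd, hd'⟩ := Metric.eventually_nhds_iff.1 hev
  have hev2 : ∀ᶠ ε in 𝓝[>] (0 : ℝ), ε ∈ Ioo (0 : ℝ) (min d 1) :=
    Ioo_mem_nhdsGT (lt_min hd one_pos)
  filter_upwards [hev2] with ε hε
  have hε0 : 0 < ε := hε.1
  have hεd : ε < d := hε.2.trans_le (min_le_left _ _)
  have hε1 : ε < 1 := hε.2.trans_le (min_le_right _ _)
  have hpos : ∀ ε', 0 ≤ ε' → ε' ≤ ε → ∀ t, 0 < s * UU p q a b (con ε' (fold (γ t))) := by
    intro ε' h1 h2 t
    apply hd' _ t (mem_univ t)
    rw [Real.dist_eq, sub_zero, abs_of_nonneg h1]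
    linarith
  have hne : ∀ z, 0 < s * UU p q a b z → UU p q a b z ≠ 0 := by
    intro z hz h0
    rw [h0] at hz
    simp at hz
  -- the connected set
  set F := Om \ {z | UU p q a b z = 0} with hF
  set A : Set (ℝ × ℝ) := (fun ε' => con ε' z) '' Icc 0 ε with hA
  set B : Set (ℝ × ℝ) := (fun t => con ε (fold (γ t))) '' (univ : Set unitInterval) with hB
  have hfz : fold (γ 0) = z := by rw [γ.source, fold_of_mem hz]
  have hApre : IsPreconnected A := by
    apply isPreconnected_Icc.image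
    unfold con
    fun_prop
  have hBpre : IsPreconnected B := by
    apply isPreconnected_univ.image
    have h2 := fold_cont
    have h4 : Continuous fun t : unitInterval => fold (γ t) := by fun_prop
    unfold con
    fun_prop
  have hAF : A ⊆ F := by
    rintro _ ⟨ε', hε', rfl⟩
    refine ⟨con_mem' hε'.1 (hε'.2.trans hε1.le) hz, ?_⟩
    have := hpos ε' hε'.1 hε'.2 0
    rw [hfz] at this
    exact hne _ this
  have hBF : B ⊆ F := by
    rintro _ ⟨t, _, rfl⟩
    refine ⟨con_mem hε0 hε1.le ?_ ?_, hne _ (hpos ε hε0.le le_rfl t)⟩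
    · exact ⟨arccos_nonneg _, arccos_le_pi _⟩
    · exact ⟨arccos_nonneg _, arccos_le_pi _⟩
  have hzA : z ∈ A := ⟨0, ⟨le_rfl, hε0.le⟩, by unfold con; simp⟩
  have hmA : con ε z ∈ A := ⟨ε, ⟨hε0.le, le_rfl⟩, rfl⟩
  have hmB : con ε z ∈ B := ⟨0, mem_univ _, by simp only [hfz]⟩
  have hwB : con ε (fold w) ∈ B := ⟨1, mem_univ _, by simp only [γ.target]⟩
  have hAB : IsPreconnected (A ∪ B) := IsPreconnected.union _ hmA hmB hApre hBpre
  exact hAB.subset_connectedComponentIn (Or.inl hzA) (union_subset hAF hBF) (Or.inr hwB)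

/-- the lattice points -/
noncomputable def lat (p q : ℕ) (jk : ℕ × ℕ) : ℝ × ℝ := (jk.1 * π / p, jk.2 * π / q)

lemma arccos_lat {p : ℕ} (hp : 0 < p) {x : ℝ} (h : sin (p * x) = 0) :
    ∃ j ∈ Finset.range (p + 1), arccos (cos x) = j * π / p := by
  have hsin : sin (p * arccos (cos x)) = 0 := by
    have h1 := sin_sq_add_cos_sq ((p : ℝ) * arccos (cos x))
    have h2 := sin_sq_add_cos_sq ((p : ℝ) * x)
    rw [cos_fold] at h1
    rw [h] at h2
    nlinarith
  obtain ⟨k, hk⟩ := sin_eq_zero_iff.1 hsin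
  have hp' : (0 : ℝ) < p := by exact_mod_cast hp
  have hpi := pi_pos
  have h0 := arccos_nonneg (cos x)
  have h1 := arccos_le_pi (cos x)
  have hk0 : 0 ≤ k := by
    by_contra hcon
    rw [not_le] at hcon
    have : (k : ℝ) ≤ -1 := by exact_mod_cast (Int.le_sub_one_iff.2 hcon)
    have h2 : 0 ≤ (p : ℝ) * arccos (cos x) := by positivity
    rw [← hk] at h2
    nlinarith
  have hkp : k ≤ p := by
    by_contra hcon
    rw [not_le] at hcon
    have : (p : ℝ) + 1 ≤ k := by exact_mod_cast hcon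
    have h2 : (p : ℝ) * arccos (cos x) ≤ p * π := mul_le_mul_of_nonneg_left h1 hp'.le
    rw [← hk] at h2
    nlinarith
  obtain ⟨j, rfl⟩ := Int.eq_ofNat_of_zero_le hk0
  refine ⟨j, ?_, ?_⟩
  · rw [Finset.mem_range]
    have : (j : ℤ) ≤ p := hkp
    omega
  · rw [eq_div_iff hp'.ne', mul_comm]
    exact_mod_cast hk.symm

/-- every nodal domain contains points near a lattice point -/
lemma exists_lat {p q : ℕ} (hqp : q < p) {a b : ℝ} (hab : |b| < |a|) {z : ℝ × ℝ}
    (hz : z ∈ Om) (hu : UU p q a b z ≠ 0) :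
    ∃ jk ∈ Finset.range (p + 1) ×ˢ Finset.range (q + 1), ∀ᶠ ε in 𝓝[>] (0 : ℝ),
      con ε (lat p q jk) ∈ connectedComponentIn (Om \ {z | UU p q a b z = 0}) z := by
  have hp : 0 < p := by omega
  have hp' : (0 : ℝ) < p := by exact_mod_cast hp
  have ha : 0 < |a| := (abs_nonneg b).trans_lt hab
  -- sign
  obtain ⟨s, hs1, hs⟩ : ∃ s : ℝ, (s = 1 ∨ s = -1) ∧ 0 < s * UU p q a b z := by
    rcases lt_or_gt_of_ne hu with h | h
    · exact ⟨-1, Or.inr rfl, by linarith⟩
    · exact ⟨1, Or.inl rfl, by linarith⟩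
  have hph : ∀ x : ℝ, ∃ φ : ℝ, (φ = 0 ∨ φ = π) ∧ x = |x| * cos φ := by
    intro x
    rcases le_total 0 x with h | h
    · exact ⟨0, Or.inl rfl, by rw [cos_zero, mul_one, abs_of_nonneg h]⟩
    · exact ⟨π, Or.inr rfl, by rw [cos_pi, abs_of_nonpos h]; ring⟩
  obtain ⟨φ₁, hφ₁, e1⟩ := hph (s * a)
  obtain ⟨φ₂, hφ₂, e2⟩ := hph (s * b)
  have hsabs : |s| = 1 := by rcases hs1 with h | h <;> rw [h] <;> norm_num
  rw [abs_mul, hsabs, one_mul] at e1 e2
  have hcosadd : ∀ φ : ℝ, (φ = 0 ∨ φ = π) → ∀ x : ℝ, cos (x + φ) = cos φ * cos x := by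
    intro φ hφ x
    rcases hφ with h | h
    · rw [h, add_zero, cos_zero, one_mul]
    · rw [h, cos_add_pi, cos_pi]; ring
  set c := |b| / |a| with hc
  have hc0 : 0 ≤ c := by positivity
  have hc1 : c < 1 := by rw [hc, div_lt_one ha]; exact hab
  have hV : ∀ z, s * UU p q a b z = |a| * VV p q c φ₁ φ₂ z := by
    intro z
    unfold UU VV
    rw [hcosadd φ₁ hφ₁, hcosadd φ₂ hφ₂, hc]
    have h1 : s * (a * (cos (p * z.1) * cos (q * z.2)) + b * (cos (q * z.1) * cos (p * z.2))) =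
        (s * a) * (cos (p * z.1) * cos (q * z.2)) +
        (s * b) * (cos (q * z.1) * cos (p * z.2)) := by ring
    rw [h1, e1, e2]
    field_simp
  have hset : {z | 0 < VV p q c φ₁ φ₂ z} = {z | 0 < s * UU p q a b z} := by
    ext z
    simp only [mem_ofPred_eq]
    rw [hV z]
    exact (mul_pos_iff_of_pos_left ha).symm
  have hVz : 0 < VV p q c φ₁ φ₂ z := by
    have : z ∈ {z | 0 < VV p q c φ₁ φ₂ z} := by rw [hset]; exact hs
    exact this
  rcases Nat.eq_zero_or_pos q with hq0 | hq0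
  · -- `q = 0`
    subst hq0
    have hVz' : 0 < VV p 0 c φ₁ φ₂ z := by simpa using hVz
    obtain ⟨w, hw1, hw2, hw3⟩ := plane_zero hp' hc0 hc1 hVz'
    have hw1' : JoinedIn {z | 0 < s * UU p 0 a b z} z w := by
      have e : {z | 0 < VV (p : ℝ) 0 c φ₁ φ₂ z} = {z | 0 < s * UU p 0 a b z} := by
        rw [← hset]; simp
      rwa [e] at hw1
    have hsin : sin (p * w.1) = 0 := by
      rcases hφ₁ with h | h
      · rwa [h, add_zero] at hw3
      · rw [h, sin_add_pi] at hw3; linarith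
    obtain ⟨j, hj, hj'⟩ := arccos_lat hp hsin
    refine ⟨(j, 0), Finset.mem_product.2 ⟨hj, by simp⟩, ?_⟩
    have := to_square hz hw1'
    have e : fold w = lat p 0 (j, 0) := by
      unfold fold lat
      rw [hj', hw2, cos_zero, arccos_one]
      simp
    rwa [e] at this
  · have hq' : (0 : ℝ) < q := by exact_mod_cast hq0
    have hpq : (q : ℝ) < p := by exact_mod_cast hqp
    have hcne : ∀ φ : ℝ, (φ = 0 ∨ φ = π) → cos φ ≠ 0 := by
      intro φ hφ
      rcases hφ with h | h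
      · rw [h, cos_zero]; norm_num
      · rw [h, cos_pi]; norm_num
    have hW : ∀ x y, cos ((q : ℝ) * x) = 0 → cos ((q : ℝ) * y) = 0 →
        cos ((p : ℝ) * y + φ₂) ≠ 0 →
        cos ((p : ℝ) * x + φ₁) ≠ 0 ∨ cos ((p : ℝ) * (x + π / q) + φ₁) ≠ 0 := by
      intro x y hx hy hpy
      by_contra hcon
      push Not at hcon
      obtain ⟨h1, h2⟩ := hcon
      rw [hcosadd φ₁ hφ₁] at h1 h2
      rw [hcosadd φ₂ hφ₂] at hpy
      have h1' := (mul_eq_zero.1 h1).resolve_left (hcne φ₁ hφ₁)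
      have h2' := (mul_eq_zero.1 h2).resolve_left (hcne φ₁ hφ₁)
      apply hpy
      apply mul_eq_zero_of_right
      obtain ⟨k, hk⟩ := cos_eq_zero_iff.1 hx
      obtain ⟨k', hk'⟩ := cos_eq_zero_iff.1 hy
      obtain ⟨l, hl⟩ := cos_eq_zero_iff.1 h1'
      obtain ⟨l', hl'⟩ := cos_eq_zero_iff.1 h2'
      have hpi := pi_pos
      have hm : (p : ℝ) = (l' - l) * q := by
        have e3 : (p : ℝ) * (π / q) = (l' - l) * π := by
          have : (p : ℝ) * (x + π / q) = p * x + p * (π / q) := by ring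
          rw [this, hl] at hl'
          linarith
        field_simp at e3
        nlinarith
      have hm' : (p : ℤ) = (l' - l) * q := by exact_mod_cast hm
      have hodd : (l' - l) * (2 * k + 1) = 2 * l + 1 := by
        have e4 : ((l' : ℝ) - l) * ((2 * k + 1) * π / 2) = (2 * l + 1) * π / 2 := by
          rw [← hk, ← hl, hm]; ring
        have e5 : (((l' : ℝ) - l) * (2 * k + 1)) = (2 * l + 1) := by
          have := pi_ne_zero
          field_simp at e4
          linarith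
        exact_mod_cast e5
      have hoddm : Odd (l' - l) := by
        have : Odd ((l' - l) * (2 * k + 1)) := by rw [hodd]; exact ⟨l, rfl⟩
        exact (Int.odd_mul.1 this).1
      obtain ⟨m, hmm⟩ := hoddm
      rw [cos_eq_zero_iff]
      refine ⟨m * (2 * k' + 1) + k', ?_⟩
      have e6 : (p : ℝ) * y = (l' - l) * (q * y) := by rw [hm]; ring
      have e7 : ((l' : ℝ) - l) = 2 * m + 1 := by exact_mod_cast hmm
      rw [e6, hk', e7]
      push_cast
      ring
    obtain ⟨w, hw1, hw2, hw3⟩ := plane hq' hpq hc0 hc1 hW hVz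
    rw [hset] at hw1
    have hsin : sin (p * w.1) = 0 := by
      rcases hφ₁ with h | h
      · rwa [h, add_zero] at hw3
      · rw [h, sin_add_pi] at hw3; linarith
    obtain ⟨j, hj, hj'⟩ := arccos_lat hp hsin
    obtain ⟨k, hk, hk'⟩ := arccos_lat hq0 hw2
    refine ⟨(j, k), Finset.mem_product.2 ⟨hj, hk⟩, ?_⟩
    have := to_square hz hw1
    have e : fold w = lat p q (j, k) := by
      unfold fold lat
      rw [hj', hk']
    rwa [e] at this

/-- the upper bound -/
theorem upper {p q : ℕ} (hqp : q < p) {a b : ℝ} (hab : |b| < |a|) :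
    (nodalDomains (UU p q a b)).Finite ∧
      (nodalDomains (UU p q a b)).ncard ≤ (p + 1) * (q + 1) := by
  classical
  set F := Om \ {z | UU p q a b z = 0} with hF
  have key : ∀ C ∈ nodalDomains (UU p q a b),
      ∃ jk ∈ Finset.range (p + 1) ×ˢ Finset.range (q + 1),
        ∀ᶠ ε in 𝓝[>] (0 : ℝ), con ε (lat p q jk) ∈ C := by
    rintro C ⟨z, hz, rfl⟩
    exact exists_lat hqp hab hz.1 hz.2
  choose! f hf1 hf2 using key
  have hinj : InjOn f (nodalDomains (UU p q a b)) := by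
    intro C hC D hD hCD
    have h1 := hf2 C hC
    have h2 := hf2 D hD
    rw [hCD] at h1
    obtain ⟨ε, hε1, hε2⟩ := (h1.and h2).exists
    obtain ⟨z, hz, rfl⟩ := hC
    obtain ⟨w, hw, rfl⟩ := hD
    exact (connectedComponentIn_eq hε1).trans (connectedComponentIn_eq hε2).symm
  have hmaps : MapsTo f (nodalDomains (UU p q a b))
      ((Finset.range (p + 1) ×ˢ Finset.range (q + 1) : Finset (ℕ × ℕ)) : Set (ℕ × ℕ)) := by
    intro C hC
    exact hf1 C hC
  have hfin : ((Finset.range (p + 1) ×ˢ Finset.range (q + 1) : Finset (ℕ × ℕ)) :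
      Set (ℕ × ℕ)).Finite := Finset.finite_toSet _
  refine ⟨Set.Finite.of_injOn hmaps hinj hfin, ?_⟩
  have := Set.ncard_le_ncard_of_injOn f hmaps hinj hfin
  rw [Set.ncard_coe_finset, Finset.card_product, Finset.card_range, Finset.card_range] at this
  exact this

end Pool.Agent.L7h26.NS
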