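import Mathlib
import Pool.Agent.L7h26.NS.Count

/-! The lower bound for the product and the comparison in the eigenspace. -/

set_option autoImplicit false

open Real Set Filter Topology

namespace Pool.Agent.L7h26.NS

/-- the number of nodal domains -/
noncomputable def mu (u : ℝ × ℝ → ℝ) : ℕ := (nodalDomains u).ncard

/-- points in the rectangles -/
noncomputable def xj (p : ℕ) (j : ℕ) : ℝ := π * (j + 1 / 2) / (p + 1)

lemma xj_mem {p j : ℕ} (hj : j < p + 1) : xj p j ∈ Ioo 0 π := by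
  have hpi := pi_pos
  have hj' : (j : ℝ) + 1 ≤ p + 1 := by exact_mod_cast hj
  have h1 : (0 : ℝ) < p + 1 := by positivity
  unfold xj
  constructor
  · positivity
  · rw [div_lt_iff₀ h1]; nlinarith

lemma xj_bound {p j : ℕ} (hj : j < p + 1) : |p * xj p j - j * π| < π / 2 := by
  have hpi := pi_pos
  have hj' : (j : ℝ) + 1 ≤ p + 1 := by exact_mod_cast hj
  have hj0 : (0 : ℝ) ≤ j := by positivity
  have h1 : (0 : ℝ) < p + 1 := by positivity
  have e : p * xj p j - j * π = π * ((p : ℝ) / 2 - j) / (p + 1) := by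
    unfold xj
    field_simp
    ring
  rw [e, abs_lt]
  constructor
  · rw [lt_div_iff₀ h1]; nlinarith
  · rw [div_lt_iff₀ h1]; nlinarith

lemma cos_xj {p j : ℕ} (hj : j < p + 1) : cos (p * xj p j) ≠ 0 := by
  have h := abs_lt.1 (xj_bound hj)
  have e : (p : ℝ) * xj p j = (p * xj p j - j * π) + j * π := by ring
  rw [e, cos_add_nat_mul_pi]
  have := cos_pos_of_mem_Ioo ⟨h.1, h.2⟩
  exact mul_ne_zero (pow_ne_zero _ (by norm_num)) this.ne'

lemma xj_sep {p j j' : ℕ} (hp : 0 < p) (hj : j < p + 1) (hj' : j' < p + 1) (h : j < j') :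
    ∃ s, xj p j < s ∧ s < xj p j' ∧ cos (p * s) = 0 := by
  have hp' : (0 : ℝ) < p := by exact_mod_cast hp
  have hpi := pi_pos
  have h1 := abs_lt.1 (xj_bound hj)
  have h2 := abs_lt.1 (xj_bound hj')
  have h3 : (j : ℝ) + 1 ≤ j' := by exact_mod_cast h
  refine ⟨(j + 1 / 2) * π / p, ?_, ?_, ?_⟩
  · rw [lt_div_iff₀ hp']; nlinarith [h1.2]
  · rw [div_lt_iff₀ hp']; nlinarith [h2.1]
  · rw [show (p : ℝ) * ((j + 1 / 2) * π / p) = (2 * (j : ℤ) + 1) * π / 2 by
      push_cast; field_simp, cos_eq_zero_iff]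
    exact ⟨j, rfl⟩

/-- a connected set avoiding a vertical line -/
lemma no_cross {C : Set (ℝ × ℝ)} (hC : IsPreconnected C) {f : ℝ × ℝ → ℝ} (hf : Continuous f)
    {z w : ℝ × ℝ} (hz : z ∈ C) (hw : w ∈ C) {s : ℝ} (h1 : f z < s) (h2 : s < f w) :
    ∃ v ∈ C, f v = s := by
  have := hC.intermediate_value hz hw hf.continuousOn
  obtain ⟨v, hv, hv'⟩ := this ⟨h1.le, h2.le⟩
  exact ⟨v, hv, hv'⟩

/-- the lower bound -/
theorem lower {p q : ℕ} (hqp : q < p) {a : ℝ} (ha : a ≠ 0) :
    (p + 1) * (q + 1) ≤ mu (UU p q a 0) := by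
  classical
  have hfin := (upper hqp (a := a) (b := 0) (by simpa using ha)).1
  have hp : 0 < p := by omega
  set F := Om \ {z | UU p q a 0 z = 0} with hF
  let g : ℕ × ℕ → Set (ℝ × ℝ) := fun jk => connectedComponentIn F (xj p jk.1, xj q jk.2)
  set T : Finset (ℕ × ℕ) := Finset.range (p + 1) ×ˢ Finset.range (q + 1) with hT
  have hmemF : ∀ jk ∈ T, (xj p jk.1, xj q jk.2) ∈ F := by
    intro jk hjk
    rw [hT, Finset.mem_product, Finset.mem_range, Finset.mem_range] at hjk
    refine ⟨⟨xj_mem hjk.1, xj_mem hjk.2⟩, ?_⟩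
    simp only [mem_ofPred_eq]
    unfold UU
    simp only [zero_mul, add_zero]
    exact mul_ne_zero ha (mul_ne_zero (cos_xj hjk.1) (cos_xj hjk.2))
  have hmaps : MapsTo g (T : Set (ℕ × ℕ)) (nodalDomains (UU p q a 0)) := by
    intro jk hjk
    exact ⟨_, hmemF jk hjk, rfl⟩
  have hzero : ∀ v ∈ F, cos (p * v.1) ≠ 0 ∧ cos (q * v.2) ≠ 0 := by
    intro v hv
    have := hv.2
    simp only [mem_ofPred_eq] at this
    unfold UU at this
    simp only [zero_mul, add_zero, mul_eq_zero, not_or] at this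
    exact ⟨this.2.1, this.2.2⟩
  have hinj : InjOn g (T : Set (ℕ × ℕ)) := by
    rintro ⟨j, k⟩ hjk ⟨j', k'⟩ hjk' heq
    have m1 := hmemF _ hjk
    have m2 := hmemF _ hjk'
    rw [hT, Finset.mem_coe, Finset.mem_product, Finset.mem_range, Finset.mem_range] at hjk hjk'
    simp only at hjk hjk' m1 m2
    have c1 : (xj p j, xj q k) ∈ g (j, k) := mem_connectedComponentIn m1
    have c2 : (xj p j', xj q k') ∈ g (j, k) := by
      rw [heq]; exact mem_connectedComponentIn m2
    have hpre : IsPreconnected (g (j, k)) := isPreconnected_connectedComponentIn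
    have hsub : g (j, k) ⊆ F := connectedComponentIn_subset _ _
    have e1 : j = j' := by
      rcases lt_trichotomy j j' with h | h | h
      · exfalso
        obtain ⟨s, h1, h2, h3⟩ := xj_sep hp hjk.1 hjk'.1 h
        obtain ⟨v, hv, hv'⟩ := no_cross hpre continuous_fst c1 c2 (s := s) h1 h2
        apply (hzero v (hsub hv)).1
        rw [hv', h3]
      · exact h
      · exfalso
        obtain ⟨s, h1, h2, h3⟩ := xj_sep hp hjk'.1 hjk.1 h
        obtain ⟨v, hv, hv'⟩ := no_cross hpre continuous_fst c2 c1 (s := s) h1 h2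
        apply (hzero v (hsub hv)).1
        rw [hv', h3]
    have e2 : k = k' := by
      rcases Nat.eq_zero_or_pos q with hq | hq
      · subst hq
        have := hjk.2
        have := hjk'.2
        omega
      rcases lt_trichotomy k k' with h | h | h
      · exfalso
        obtain ⟨s, h1, h2, h3⟩ := xj_sep hq hjk.2 hjk'.2 h
        obtain ⟨v, hv, hv'⟩ := no_cross hpre continuous_snd c1 c2 (s := s) h1 h2
        apply (hzero v (hsub hv)).2
        rw [hv', h3]
      · exact h
      · exfalso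
        obtain ⟨s, h1, h2, h3⟩ := xj_sep hq hjk'.2 hjk.2 h
        obtain ⟨v, hv, hv'⟩ := no_cross hpre continuous_snd c2 c1 (s := s) h1 h2
        apply (hzero v (hsub hv)).2
        rw [hv', h3]
    rw [e1, e2]
  have := Set.ncard_le_ncard_of_injOn g hmaps hinj hfin
  rw [Set.ncard_coe_finset, hT, Finset.card_product, Finset.card_range, Finset.card_range] at this
  exact this

/-- multiples have the same nodal domains -/
lemma nodalDomains_congr {u v : ℝ × ℝ → ℝ} (h : ∀ z, u z = 0 ↔ v z = 0) :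
    nodalDomains u = nodalDomains v := by
  unfold nodalDomains
  have : {z | u z = 0} = {z | v z = 0} := by ext z; exact h z
  rw [this]

lemma nodalDomains_swap (u : ℝ × ℝ → ℝ) :
    nodalDomains (fun z => u z.swap) = (fun C => Prod.swap '' C) '' nodalDomains u := by
  have hsw : ∀ s : Set (ℝ × ℝ), ∀ z ∈ s, Prod.swap '' connectedComponentIn s z =
      connectedComponentIn (Prod.swap '' s) z.swap := by
    intro s z hz
    exact (Homeomorph.prodComm ℝ ℝ).image_connectedComponentIn hz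
  have himg : Prod.swap '' (Om \ {z | u z = 0}) = Om \ {z : ℝ × ℝ | u z.swap = 0} := by
    ext z
    constructor
    · rintro ⟨w, hw, rfl⟩
      refine ⟨⟨hw.1.2, hw.1.1⟩, ?_⟩
      simpa using hw.2
    · intro hz
      refine ⟨z.swap, ⟨⟨hz.1.2, hz.1.1⟩, ?_⟩, by simp⟩
      simpa using hz.2
  ext C
  constructor
  · rintro ⟨z, hz, rfl⟩
    rw [← himg] at hz ⊢
    obtain ⟨w, hw, rfl⟩ := hz
    exact ⟨connectedComponentIn _ w, ⟨w, hw, rfl⟩, hsw _ w hw⟩
  · rintro ⟨_, ⟨w, hw, rfl⟩, rfl⟩
    refine ⟨w.swap, ?_, ?_⟩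
    · rw [← himg]; exact ⟨w, hw, rfl⟩
    · simp only
      rw [hsw _ w hw, himg]

lemma mu_swap (u : ℝ × ℝ → ℝ) : mu (fun z => u z.swap) = mu u := by
  unfold mu
  rw [nodalDomains_swap]
  apply Set.ncard_image_of_injective
  intro A B hAB
  exact Prod.swap_injective.image_injective hAB

lemma UU_swap (p q : ℕ) (a b : ℝ) : (fun z : ℝ × ℝ => UU p q b a z.swap) = UU p q a b := by
  funext z
  unfold UU
  simp only [Prod.fst_swap, Prod.snd_swap]
  ring

/-- the bound for all members which are not special -/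
theorem upper' {p q : ℕ} (hqp : q < p) {a b : ℝ} (hab : |a| ≠ |b|) :
    (nodalDomains (UU p q a b)).Finite ∧ mu (UU p q a b) ≤ (p + 1) * (q + 1) := by
  rcases lt_or_gt_of_ne hab with h | h
  · have h1 := upper hqp h
    rw [← UU_swap p q a b]
    constructor
    · rw [nodalDomains_swap]
      exact h1.1.image _
    · rw [mu_swap]
      exact h1.2
  · exact upper hqp h

end Pool.Agent.L7h26.NS
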